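import Pool.Agent.P.MP_5aaff8_an.Defs

/-! Ellipsoids, nearest point projections and Jacobian matrices. -/

namespace Pool.Agent.P.MP_5aaff8_an

/-- The solid ellipsoid `{y : ∑ l_a y_a² ≤ 1}`. -/
def ellipsoid {m : ℕ} (l : Fin m → ℝ) : Set (EuclideanSpace ℝ (Fin m)) :=
  {y | ∑ a, l a * y a ^ 2 ≤ 1}

/-- `Pr` maps every point to a nearest point of `K`. -/
def IsNearestProj {m : ℕ} (K : Set (EuclideanSpace ℝ (Fin m)))
    (Pr : EuclideanSpace ℝ (Fin m) → EuclideanSpace ℝ (Fin m)) : Prop :=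
  ∀ y, Pr y ∈ K ∧ ∀ z ∈ K, dist y (Pr y) ≤ dist y z

/-- The `m × n` matrix of the Fréchet derivative of `f` at `x`. -/
noncomputable def jac {n m : ℕ} (f : EuclideanSpace ℝ (Fin n) → EuclideanSpace ℝ (Fin m))
    (x : EuclideanSpace ℝ (Fin n)) : Matrix (Fin m) (Fin n) ℝ :=
  Matrix.of fun a i => fderiv ℝ f x (EuclideanSpace.single i 1) a

end Pool.Agent.P.MP_5aaff8_an
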