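import Pool.Agent.P.MP_5aaff8_an.Proj.Reg

/-! The ranks of the differentials of the glued map and of its projection to the ellipsoid. -/

namespace Pool.Agent.P.MP_5aaff8_an

open MeasureTheory Filter Topology Set Metric Complex
open scoped ComplexConjugate

variable {n m : ℕ} {i0 i1 : Fin n} {l : Fin m → ℝ} {a0 a1 a2 : Fin m}
  {W : ℂ → (Fin m → ℂ) × (Fin m → ℂ)}

section Rank

variable {u : EuclideanSpace ℝ (Fin n) → EuclideanSpace ℝ (Fin m)}
  {D : Matrix (Fin m) (Fin n) ℝ} {x : EuclideanSpace ℝ (Fin n)}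
  {Pr : EuclideanSpace ℝ (Fin m) → EuclideanSpace ℝ (Fin m)}

theorem Dif.vec (h : Dif u D x) :
    DifferentiableAt ℝ u x ∧ ∀ a i, fderiv ℝ u x (EuclideanSpace.single i 1) a = D a i := by
  have h1 : DifferentiableAt ℝ u x := differentiableAt_euclidean.mpr fun a => (h a).1
  refine ⟨h1, fun a i => ?_⟩
  have h2 : HasFDerivAt (fun x => u x a) _ x :=
    (EuclideanSpace.proj a : EuclideanSpace ℝ (Fin m) →L[ℝ] ℝ).hasFDerivAt.comp x h1.hasFDerivAt
  rw [← (h a).2 i, h2.fderiv]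
  rfl

theorem rank_low (h : Dif u D x) (hP : DifferentiableAt ℝ Pr (u x)) {w : Fin m → ℝ}
    {c : Fin n → ℝ} (hD : ∀ a i, D a i = w a * c i) :
    D.rank ≤ 1 ∧ DifferentiableAt ℝ (Pr ∘ u) x ∧ (jac (Pr ∘ u) x).rank ≤ 1 := by
  obtain ⟨h1, h2⟩ := h.vec
  refine ⟨?_, hP.comp x h1, ?_⟩
  · rw [show D = Matrix.vecMulVec w c from Matrix.ext hD]
    exact Matrix.rank_vecMulVec_le _ _
  · have h3 : jac (Pr ∘ u) x
        = Matrix.vecMulVec (fun a => fderiv ℝ Pr (u x) (WithLp.toLp 2 w) a) c := by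
      ext a i
      have h4 : fderiv ℝ u x (EuclideanSpace.single i 1) = c i • WithLp.toLp 2 w := by
        ext b
        rw [h2, hD, mul_comm]
        rfl
      rw [jac, Matrix.of_apply, fderiv_comp x hP h1, ContinuousLinearMap.comp_apply, h4, map_smul,
        Matrix.vecMulVec_apply, mul_comm]
      rfl
    rw [h3]
    exact Matrix.rank_vecMulVec_le _ _

/-- A `3 × 3` minor. -/
def det3 (a0 a1 a2 : Fin m) (a b N : Fin m → ℝ) : ℝ :=
  a a0 * (b a1 * N a2 - b a2 * N a1) - b a0 * (a a1 * N a2 - a a2 * N a1)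
    + N a0 * (a a1 * b a2 - a a2 * b a1)

theorem det3_ker {a b N : Fin m → ℝ} (h : det3 a0 a1 a2 a b N ≠ 0) {ξ η t : ℝ}
    (he : ∀ j, ξ * a j + η * b j = N j * t) : ξ = 0 ∧ η = 0 := by
  constructor
  · refine (mul_eq_zero.mp (?_ : ξ * det3 a0 a1 a2 a b N = 0)).resolve_right h
    unfold det3
    linear_combination (b a1 * N a2 - b a2 * N a1) * he a0 - (b a0 * N a2 - b a2 * N a0) * he a1
      + (b a0 * N a1 - b a1 * N a0) * he a2
  · refine (mul_eq_zero.mp (?_ : η * det3 a0 a1 a2 a b N = 0)).resolve_right h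
    unfold det3
    linear_combination -(a a1 * N a2 - a a2 * N a1) * he a0 + (a a0 * N a2 - a a2 * N a0) * he a1
      - (a a0 * N a1 - a a1 * N a0) * he a2

theorem rank_high (h : Dif u D x) (hP : DifferentiableAt ℝ Pr (u x)) {c N : Fin m → ℝ}
    (hk : ∀ w, fderiv ℝ Pr (u x) w = 0 → ∃ t : ℝ, ∀ a, w a * c a = N a * t)
    (hd : det3 a0 a1 a2 (fun a => D a i0 * c a) (fun a => D a i1 * c a) N ≠ 0) :
    2 ≤ D.rank ∧ DifferentiableAt ℝ (Pr ∘ u) x ∧ 2 ≤ (jac (Pr ∘ u) x).rank := by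
  obtain ⟨h1, h2⟩ := h.vec
  refine ⟨two_le_rank D i0 i1 fun ξ η he => det3_ker hd (t := 0) fun j => ?_, hP.comp x h1,
    two_le_rank _ i0 i1 fun ξ η he => ?_⟩
  · linear_combination c j * he j
  · obtain ⟨t, ht⟩ := hk (ξ • fderiv ℝ u x (EuclideanSpace.single i0 1)
        + η • fderiv ℝ u x (EuclideanSpace.single i1 1)) (by
      ext a
      have := he a
      simp only [jac, Matrix.of_apply, fderiv_comp x hP h1, ContinuousLinearMap.comp_apply] at this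
      simpa using this)
    refine det3_ker hd (t := t) fun j => ?_
    have := ht j
    simp only [PiLp.add_apply, PiLp.smul_apply, smul_eq_mul, h2] at this
    linear_combination this

end Rank

theorem pt_mem_ball (h01 : i0 ≠ i1) {r s t : ℝ} (hr : 0 < r) (h : s ^ 2 + (t + r / 2) ^ 2 < r ^ 2) :
    pt i0 i1 s t ∈ ball (pt i0 i1 0 (-r / 2)) r := by
  rw [mem_ball_iff_norm]
  have h1 : ‖pt i0 i1 s t - pt i0 i1 0 (-r / 2)‖ ^ 2 = s ^ 2 + (t + r / 2) ^ 2 := by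
    rw [EuclideanSpace.real_norm_sq_eq, ← sum_two h01]
    refine Finset.sum_congr rfl fun i _ => ?_
    simp only [pt, PiLp.sub_apply]
    split_ifs <;> ring
  refine lt_of_pow_lt_pow_left₀ 2 hr.le ?_
  rwa [h1]

theorem continuous_pt : Continuous fun t : ℝ => pt i0 i1 0 t :=
  (PiLp.continuous_toLp 2 _).comp (continuous_pi fun i => by split_ifs <;> fun_prop)

/-- The vertex of the ellipsoid. -/
noncomputable def vtx (l : Fin m → ℝ) (a0 : Fin m) : EuclideanSpace ℝ (Fin m) :=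
  WithLp.toLp 2 fun a => ((p0 l a0).1 a).re

theorem p0_im (a : Fin m) : ((p0 l a0).1 a).im = 0 := by
  simp only [p0]
  split_ifs
  · exact ofReal_im _
  · rfl

/-- On the axis `s = 0` the minor does not vanish for small `t > 0`. -/
theorem det_ne (h01 : i0 ≠ i1) (h1 : a1 ≠ a0) (h2 : a2 ≠ a0) (hne : l a1 ≠ l a2)
    (hW0 : W 0 = p0 l a0) {B r : ℝ} (hr : 0 < r)
    (hz : ∀ z : ℂ, ‖z‖ < 3 * r → Nice l a0 W B z) {c : ℝ → Fin m → ℝ}
    (hc : ∀ a, Tendsto (fun t => c t a) (𝓝[>] 0) (𝓝 1)) :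
    ∀ᶠ t in 𝓝[>] (0 : ℝ), det3 a0 a1 a2 (fun a => DE i0 i1 W r (pt i0 i1 0 t) a i0 * c t a)
      (fun a => DE i0 i1 W r (pt i0 i1 0 t) a i1 * c t a)
      (fun a => uE i0 i1 W r (pt i0 i1 0 t) a * l a) ≠ 0 := by
  have n0 : Nice l a0 W B (((0 : ℝ) : ℂ) + I * (0 : ℝ)) := hz _ (by simpa using hr)
  have tV : ∀ a, a ≠ a0 → Tendsto (fun t : ℝ => rim ((W (((0 : ℝ) : ℂ) + I * t)).2 a))
      (𝓝[>] 0) (𝓝 1) := fun a ha => by
    have := (hasDerivAt_vert 1 (n0.d2 a)).continuousAt.tendsto.mono_left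
      (nhdsWithin_le_nhds (s := Ioi 0))
    simpa [hW0, p0, ha, rim_apply] using this
  have tX : ∀ a, a ≠ a0 → Tendsto (fun t : ℝ => t⁻¹ * rim ((W (((0 : ℝ) : ℂ) + I * t)).1 a))
      (𝓝[>] 0) (𝓝 1) := fun a ha => by
    have := (hasDerivAt_vert 1 (n0.d1 a)).tendsto_slope_zero_right
    simpa [hW0, p0, ha, rim_apply] using this
  have tD := (((tV a1 h1).mul (hc a1)).mul ((tX a2 h2).mul_const (l a2))).sub
    (((tV a2 h2).mul (hc a2)).mul ((tX a1 h1).mul_const (l a1)))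
  filter_upwards [tD.eventually_ne (b₂ := 0) (by simpa [sub_eq_zero] using hne.symm),
    (hc a0).eventually (lt_mem_nhds one_pos), Ioo_mem_nhdsGT (half_pos hr)] with t e1 e2 ht
  have hx : pt i0 i1 0 t ∈ ball (pt i0 i1 0 (-r / 2)) r :=
    pt_mem_ball h01 hr (by nlinarith [ht.1, ht.2])
  have hf := form_up (W := W) h01 hx (by rw [pt_1 h01]; exact ht.1.le)
  have hn : ∀ t' ∈ Icc 0 t, Nice l a0 W B (((0 : ℝ) : ℂ) + I * t') := fun t' ht' => by
    have := nice_vert h01 hz hx (t := t') (by rwa [pt_1 h01])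
    rwa [pt_0] at this
  have e3 : 0 < rim (I * (W (((0 : ℝ) : ℂ) + I * t)).2 a0) := by
    have := lt_of_deriv_pos ht.1 (f := fun t : ℝ => rim (I * (W (((0 : ℝ) : ℂ) + I * t)).2 a0))
      (fun t' ht' => hasDerivAt_vert I ((hn t' ht').d2 a0)) (fun t' ht' => by
        rw [← mul_assoc, I_mul_I, neg_one_mul, neg_neg]
        exact (hn t' (Ioo_subset_Icc_self ht')).pos0)
    simpa [hW0, p0] using this
  have z0 : zet i0 i1 (EuclideanSpace.single i0 1) = 1 := by simp [zet_apply, h01.symm]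
  have z1 : zet i0 i1 (EuclideanSpace.single i1 1) = I := by simp [zet_apply, h01]
  have zt : zet i0 i1 (pt i0 i1 0 t) = ((0 : ℝ) : ℂ) + I * t := by rw [zet_apply, pt_0, pt_1 h01]
  have nt := hn t ⟨ht.1.le, le_rfl⟩
  have hs : ∀ a, conj ((W (((0 : ℝ) : ℂ) + I * t)).2 a)
      = -(sg a0 a * (W (((0 : ℝ) : ℂ) + I * t)).2 a) := fun a => by
    rw [← (nt.hc a).2, ← (nt.hn a).2]
    simp
  simp only [det3, (hf _).1, (hf _).2, z0, z1, zt, one_mul]
  generalize W (((0 : ℝ) : ℂ) + I * t) = w at e1 e3 hs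
  have s0 : rim (w.2 a0) = -rim (I * w.2 a0) := by
    have := congrArg re (hs a0)
    simp [sg] at this
    simp [rim_apply]
    linarith
  have s1 : ∀ a, a ≠ a0 → rim (I * w.2 a) = rim (w.2 a) := fun a ha => by
    have := congrArg im (hs a)
    simp [sg, ha] at this
    simp [rim_apply]
    linarith
  rw [s0, s1 a1 h1, s1 a2 h2]
  intro h
  have ht0 := ht.1.ne'
  have e4 : (-2 * rim (I * w.2 a0) * c t a0 * t) *
      (rim (w.2 a1) * c t a1 * (t⁻¹ * rim (w.1 a2) * l a2)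
        - rim (w.2 a2) * c t a2 * (t⁻¹ * rim (w.1 a1) * l a1)) = 0 := by
    rw [← h]
    field_simp
    ring
  have e5 := mul_pos (mul_pos e3 e2) ht.1
  rcases mul_eq_zero.mp e4 with h | h
  · linarith
  · exact e1 h

theorem main (h01 : i0 ≠ i1) (hl : ∀ a, 0 < l a) (h1 : a1 ≠ a0) (h2 : a2 ≠ a0)
    (hne : l a1 ≠ l a2) {Pr : EuclideanSpace ℝ (Fin m) → EuclideanSpace ℝ (Fin m)}
    (hPr : IsNearestProj (ellipsoid l) Pr) :
    ∃ (c : EuclideanSpace ℝ (Fin n)) (r : ℝ)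
      (u : EuclideanSpace ℝ (Fin n) → EuclideanSpace ℝ (Fin m))
      (Du : EuclideanSpace ℝ (Fin n) → Matrix (Fin m) (Fin n) ℝ),
      0 < r ∧ Continuous u ∧ IsMinimizingConstraintMap (ball c r) (ellipsoid l)ᶜ u Du ∧
      (∃ U, IsOpen U ∧ U.Nonempty ∧ U ⊆ ball c r ∧ ∀ x ∈ U, u x ∈ (ellipsoid l)ᶜ ∧
        (Du x).rank ≤ 1 ∧ DifferentiableAt ℝ (Pr ∘ u) x ∧ (jac (Pr ∘ u) x).rank ≤ 1) ∧
      (∃ V, IsOpen V ∧ V.Nonempty ∧ V ⊆ ball c r ∧ ∀ x ∈ V,
        2 ≤ (Du x).rank ∧ DifferentiableAt ℝ (Pr ∘ u) x ∧ 2 ≤ (jac (Pr ∘ u) x).rank) := by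
  obtain ⟨W, B, hW, hW0, hB, hN⟩ := exists_nice hl h1
  have hv : ∑ a, l a * vtx l a0 a ^ 2 = 1 := by
    have := (hN.self_of_nhds : Nice l a0 W B (0 : ℝ)).Qre
    simp only [ofReal_zero, hW0] at this
    exact this
  obtain ⟨μ, hμ0, hμ⟩ := proj_local hl hPr hv
  set G : ℝ × ℝ → EuclideanSpace ℝ (Fin m) := fun p =>
    WithLp.toLp 2 fun a => ((W p.1).1 a).re + ((W p.1).2 a).re * p.2 with hG
  have hGc : Continuous G := by
    have := hW.continuous
    exact (PiLp.continuous_toLp 2 _).comp (continuous_pi fun a => by fun_prop)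
  have hG0 : G 0 = vtx l a0 := by
    ext a
    simp [hG, hW0, vtx]
  obtain ⟨ε, hε, hεG⟩ := Metric.eventually_nhds_iff.mp
    ((hG0 ▸ hGc.tendsto 0 : Tendsto G (𝓝 0) (𝓝 (vtx l a0))).eventually hμ)
  obtain ⟨ρ, hρ, hρN⟩ := Metric.eventually_nhds_iff.mp hN
  have hsm : ∀ᶠ r in 𝓝[>] (0 : ℝ), ∀ a, 8 * r ^ 2 * B * l a ≤ 1 := by
    refine eventually_all.mpr fun a => mem_nhdsWithin_of_mem_nhds ?_
    have : Continuous fun r : ℝ => 8 * r ^ 2 * B * l a := by fun_prop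
    exact this.continuousAt.eventually (ge_mem_nhds (by simp))
  have hio : ∀ {b : ℝ}, 0 < b → ∀ᶠ r in 𝓝[>] (0 : ℝ), r ∈ Ioo 0 b := fun hb => Ioo_mem_nhdsGT hb
  obtain ⟨r, hrB, ⟨hr, hrε⟩, -, hrρ⟩ := (hsm.and ((hio (show 0 < ε / 4 by positivity)).and
    (hio (show 0 < ρ / 3 by positivity)))).exists
  have hz : ∀ z : ℂ, ‖z‖ < 3 * r → Nice l a0 W B z := fun z hz' =>
    hρN (by rw [dist_zero_right]; linarith)
  have hu := uE_cont h01 hW r
  refine ⟨pt i0 i1 0 (-r / 2), r, uE i0 i1 W r, DE i0 i1 W r, hr, hu, isMinE h01 hl hW hr hz hrB,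
    ⟨ball (pt i0 i1 0 (-r / 2)) r ∩ {x | x i0 + x i1 < -r},
      isOpen_ball.inter (isOpen_lt (by fun_prop) continuous_const),
      ⟨pt i0 i1 (-r / 2) (-r), pt_mem_ball h01 hr (by nlinarith), ?_⟩, inter_subset_left,
      fun x hx => ?_⟩, ?_⟩
  · rw [mem_ofPred_eq, pt_0, pt_1 h01]
    linarith
  · obtain ⟨e1, e2, -, e4⟩ := reg_line h01 hz hx.1 hx.2
    have e5 : uE i0 i1 W r x = G (-r, x i0 + x i1 + r) := by
      ext a
      exact (e4 a).1
    obtain ⟨b1, b2⟩ := box h01 hx.1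
    have e6 := hεG (y := (-r, x i0 + x i1 + r)) (by
      rw [dist_zero_right, Prod.norm_mk, Real.norm_eq_abs, Real.norm_eq_abs, max_lt_iff, abs_lt,
        abs_lt]
      rw [abs_lt] at b1 b2
      refine ⟨⟨?_, ?_⟩, ?_, ?_⟩ <;> linarith [b1.1, b1.2, b2.1, b2.2])
    rw [← e5] at e6
    exact ⟨not_le.mpr e2, rank_low e1 (e6.2.2 e2).1 fun a i => (e4 a).2 i⟩
  · have x0 : uE i0 i1 W r (pt i0 i1 0 0) = vtx l a0 := by
      ext a
      rw [(form_up h01 (pt_mem_ball h01 hr (by nlinarith)) (by rw [pt_1 h01]) a).1, zet_apply,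
        pt_0, pt_1 h01]
      simp [hW0, vtx, rim_apply, p0_im]
    have t1 : Tendsto (uE i0 i1 W r) (𝓝 (pt i0 i1 0 0)) (𝓝 (vtx l a0)) := x0 ▸ hu.tendsto _
    have t2 : Tendsto (fun t : ℝ => pt i0 i1 0 t) (𝓝[>] 0) (𝓝 (pt i0 i1 0 0)) :=
      (continuous_pt.tendsto 0).mono_left nhdsWithin_le_nhds
    have t3 : ∀ a, Tendsto (fun t : ℝ => 1 + μ (uE i0 i1 W r (pt i0 i1 0 t)) * l a) (𝓝[>] 0)
        (𝓝 1) := fun a => by
      have := ((hμ.self_of_nhds.1.tendsto.comp (t1.comp t2)).mul_const (l a)).const_add 1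
      simpa [hμ0] using this
    obtain ⟨t, e1, e2, ht⟩ := ((det_ne h01 h1 h2 hne hW0 hr hz t3).and
      ((t2.eventually (t1.eventually hμ).eventually_nhds).and
        (hio (half_pos hr)))).exists
    have hx : pt i0 i1 0 t ∈ ball (pt i0 i1 0 (-r / 2)) r :=
      pt_mem_ball h01 hr (by nlinarith [ht.1, ht.2])
    have c1 : ∀ a i, ContinuousAt (fun x => DE i0 i1 W r x a i) (pt i0 i1 0 t) := fun a i =>
      (pp_glue h01 (contDiff_pi.mp hW.snd a) (-r) i).1.continuous.continuousAt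
    have c2 : ∀ a, ContinuousAt (fun x => uE i0 i1 W r x a * l a) (pt i0 i1 0 t) := fun a =>
      (((EuclideanSpace.proj a : EuclideanSpace ℝ (Fin m) →L[ℝ] ℝ).continuous.comp hu).mul
        continuous_const).continuousAt
    have c3 : ∀ a, ContinuousAt (fun x => 1 + μ (uE i0 i1 W r x) * l a) (pt i0 i1 0 t) := fun a =>
      continuousAt_const.add ((ContinuousAt.comp (f := uE i0 i1 W r) e2.self_of_nhds.1
        hu.continuousAt).mul continuousAt_const)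
    have c4 : ContinuousAt (fun x => det3 a0 a1 a2
        (fun a => DE i0 i1 W r x a i0 * (1 + μ (uE i0 i1 W r x) * l a))
        (fun a => DE i0 i1 W r x a i1 * (1 + μ (uE i0 i1 W r x) * l a))
        (fun a => uE i0 i1 W r x a * l a)) (pt i0 i1 0 t) := by
      have c5 := fun a i => (c1 a i).mul (c3 a)
      exact (((c5 a0 i0).mul (((c5 a1 i1).mul (c2 a2)).sub ((c5 a2 i1).mul (c2 a1)))).sub
        ((c5 a0 i1).mul (((c5 a1 i0).mul (c2 a2)).sub ((c5 a2 i0).mul (c2 a1))))).add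
        ((c2 a0).mul (((c5 a1 i0).mul (c5 a2 i1)).sub ((c5 a2 i0).mul (c5 a1 i1))))
    have c6 : Continuous fun x : EuclideanSpace ℝ (Fin n) => x i1 := by fun_prop
    obtain ⟨V, v1, v2, v3⟩ := _root_.eventually_nhds_iff.mp ((c4.eventually_ne e1).and (e2.and
      ((isOpen_ball.eventually_mem hx).and (c6.continuousAt.eventually
        (lt_mem_nhds (show 0 < pt i0 i1 0 t i1 by rw [pt_1 h01]; exact ht.1))))))
    refine ⟨V, v2, ⟨_, v3⟩, fun x hx => (v1 x hx).2.2.1, fun x hx => ?_⟩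
    obtain ⟨f1, f2, f3, f4⟩ := v1 x hx
    obtain ⟨g1, g2, -⟩ := reg_up h01 hl hz f3 f4
    exact rank_high g1 (f2.2.2 g2).1 (f2.2.2 g2).2 f1

end Pool.Agent.P.MP_5aaff8_an
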