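import Pool.Agent.P.MP_443837_an.S0.Hol

/-! A holomorphic germ of a geodesic of an ellipsoid through a vertex, with its symmetries. -/

namespace Pool.Agent.P.MP_5aaff8_an

open Filter Topology Set Metric
open scoped ComplexConjugate

theorem exists_ext {E : Type} [NormedAddCommGroup E] [NormedSpace ℝ E] {f : ℂ → E} {r : ℝ}
    (hr : 0 < r) (hf : ∀ z ∈ ball (0 : ℂ) r, ContDiffAt ℝ 1 f z) :
    ∃ g : ℂ → E, ContDiff ℝ 1 g ∧ g =ᶠ[𝓝 0] f := by
  let b : ContDiffBump (0 : ℂ) := ⟨r / 3, r / 2, by positivity, by linarith⟩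
  refine ⟨fun z => b z • f z, contDiff_iff_contDiffAt.mpr fun z => ?_, ?_⟩
  · by_cases hz : z ∈ ball (0 : ℂ) r
    · exact b.contDiffAt.smul (hf z hz)
    · have h1 : ∀ᶠ w in 𝓝 z, r / 2 < dist w 0 := by
        have : Continuous fun w : ℂ => dist w 0 := by fun_prop
        refine this.continuousAt.eventually (lt_mem_nhds ?_)
        rw [mem_ball, not_lt] at hz
        linarith
      refine (contDiffAt_const (c := (0 : E))).congr_of_eventuallyEq ?_
      filter_upwards [h1] with w hw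
      rw [b.zero_of_le_dist hw.le, zero_smul]
  · filter_upwards [b.eventuallyEq_one] with z hz
    rw [hz, Pi.one_apply, one_smul]

theorem const_of_deriv {f : ℂ → ℂ} (hf : ∀ᶠ z in 𝓝 (0 : ℂ), HasDerivAt f 0 z) :
    ∀ᶠ z in 𝓝 (0 : ℂ), f z = f 0 := by
  obtain ⟨r, hr, h⟩ := Metric.eventually_nhds_iff_ball.1 hf
  filter_upwards [ball_mem_nhds (0 : ℂ) hr] with z hz
  exact isOpen_ball.is_const_of_deriv_eq_zero (convex_ball _ _).isPreconnected
    (fun w hw => (h w hw).differentiableAt.differentiableWithinAt)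
    (fun w hw => (h w hw).deriv) hz (mem_ball_self hr)

variable {m : ℕ}

/-- The curvature factor. -/
noncomputable def kap (l : Fin m → ℝ) (p : (Fin m → ℂ) × (Fin m → ℂ)) : ℂ :=
  (∑ a, (l a : ℂ) * p.2 a ^ 2) / ∑ a, (l a : ℂ) ^ 2 * p.1 a ^ 2

/-- The geodesic vector field. -/
noncomputable def fld (l : Fin m → ℝ) (p : (Fin m → ℂ) × (Fin m → ℂ)) :
    (Fin m → ℂ) × (Fin m → ℂ) :=
  (p.2, fun a => -(kap l p * l a * p.1 a))

/-- The sign pattern of the half turn about the axis `a0`. -/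
def sg (a0 a : Fin m) : ℂ := if a = a0 then 1 else -1

theorem sg_sq (a0 a : Fin m) : sg a0 a ^ 2 = 1 := by
  unfold sg; split_ifs <;> simp

/-- The initial point and velocity. -/
noncomputable def p0 (l : Fin m → ℝ) (a0 : Fin m) : (Fin m → ℂ) × (Fin m → ℂ) :=
  (fun a => if a = a0 then (((√(l a0))⁻¹ : ℝ) : ℂ) else 0, fun a => if a = a0 then 0 else 1)

theorem p0_N {l : Fin m → ℝ} (hl : ∀ a, 0 < l a) (a0 : Fin m) :
    ∑ a, (l a : ℂ) ^ 2 * (p0 l a0).1 a ^ 2 = l a0 := by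
  rw [Finset.sum_eq_single a0 (fun b _ hb => by simp [p0, hb]) (by simp)]
  simp only [p0, if_true]
  have h1 : (l a0) ^ 2 * ((√(l a0))⁻¹) ^ 2 = l a0 := by
    rw [inv_pow, Real.sq_sqrt (hl a0).le]
    have := (hl a0).ne'
    field_simp
  exact_mod_cast h1

theorem p0_Q {l : Fin m → ℝ} (hl : ∀ a, 0 < l a) (a0 : Fin m) :
    ∑ a, (l a : ℂ) * (p0 l a0).1 a ^ 2 = 1 := by
  rw [Finset.sum_eq_single a0 (fun b _ hb => by simp [p0, hb]) (by simp)]
  simp only [p0, if_true]
  have h1 : (l a0) * ((√(l a0))⁻¹) ^ 2 = 1 := by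
    rw [inv_pow, Real.sq_sqrt (hl a0).le]
    have := (hl a0).ne'
    field_simp
  exact_mod_cast h1

theorem exists_geodesic {l : Fin m → ℝ} (hl : ∀ a, 0 < l a) (a0 : Fin m) :
    ∃ W : ℂ → (Fin m → ℂ) × (Fin m → ℂ), ContDiff ℝ 1 W ∧ W 0 = p0 l a0 ∧
      ContinuousAt (fun z => kap l (W z)) 0 ∧
      ∀ᶠ z in 𝓝 (0 : ℂ), HasDerivAt W (fld l (W z)) z ∧
        ∑ a, (l a : ℂ) * (W z).1 a ^ 2 = 1 ∧ ∑ a, (l a : ℂ) * ((W z).1 a * (W z).2 a) = 0 ∧
        (∀ a, (W (conj z)).1 a = conj ((W z).1 a) ∧ (W (conj z)).2 a = conj ((W z).2 a)) ∧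
        ∀ a, (W (-z)).1 a = sg a0 a * (W z).1 a ∧ (W (-z)).2 a = -(sg a0 a * (W z).2 a) := by
  set U : Set ((Fin m → ℂ) × (Fin m → ℂ)) := {p | ∑ a, (l a : ℂ) ^ 2 * p.1 a ^ 2 ≠ 0} with hU
  have hUo : IsOpen U := isOpen_ne_fun (by fun_prop) continuous_const
  have hk : DifferentiableOn ℂ (kap l) U := by
    have h1 : DifferentiableOn ℂ
        (fun p : (Fin m → ℂ) × (Fin m → ℂ) => ∑ a, (l a : ℂ) * p.2 a ^ 2) U := by fun_prop
    have h2 : DifferentiableOn ℂ
        (fun p : (Fin m → ℂ) × (Fin m → ℂ) => ∑ a, (l a : ℂ) ^ 2 * p.1 a ^ 2) U := by fun_prop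
    exact h1.mul (h2.inv fun p hp => hp)
  have hZ : DifferentiableOn ℂ (fld l) U := by
    unfold fld
    refine differentiableOn_snd.prodMk (differentiableOn_pi.mpr fun a => ?_)
    exact ((hk.mul_const _).mul (by fun_prop)).neg
  have hp0 : p0 l a0 ∈ U := by
    simp only [hU, mem_ofPred_eq, p0_N hl]
    exact_mod_cast (hl a0).ne'
  obtain ⟨r, hr, Φ, hΦ, h0, hd⟩ := CLS.S0.flow hUo hZ hp0
  obtain ⟨W, hW, hWe⟩ := exists_ext (f := fun z => Φ (z, p0 l a0)) hr fun z hz =>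
    (((hΦ (z, p0 l a0) ⟨hz, mem_ball_self hr⟩).comp (f := fun z : ℂ => (z, p0 l a0))
      (by fun_prop)).contDiffAt (n := 1)).restrict_scalars ℝ
  have hW0 : W 0 = p0 l a0 := hWe.self_of_nhds.trans (h0 _ (mem_ball_self hr))
  have hWd : ∀ᶠ z in 𝓝 (0 : ℂ), HasDerivAt W (fld l (W z)) z := by
    filter_upwards [hWe.eventuallyEq_nhds, ball_mem_nhds (0 : ℂ) hr] with z hz hz'
    rw [hz.self_of_nhds]
    exact (hd _ (mem_ball_self hr) z hz').2.congr_of_eventuallyEq hz
  have hWU : ∀ᶠ z in 𝓝 (0 : ℂ), W z ∈ U :=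
    hW.continuous.continuousAt.eventually (hUo.mem_nhds (by rw [hW0]; exact hp0))
  have h1 : ∀ {z : ℂ}, HasDerivAt W (fld l (W z)) z → ∀ a,
      HasDerivAt (fun z => (W z).1 a) ((W z).2 a) z := fun h a =>
    hasDerivAt_pi.mp h.fst a
  have h2 : ∀ {z : ℂ}, HasDerivAt W (fld l (W z)) z → ∀ a,
      HasDerivAt (fun z => (W z).2 a) (-(kap l (W z) * l a * (W z).1 a)) z := fun h a =>
    hasDerivAt_pi.mp h.snd a
  have hP : ∀ᶠ z in 𝓝 (0 : ℂ), ∑ a, (l a : ℂ) * ((W z).1 a * (W z).2 a) = 0 := by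
    have := const_of_deriv (f := fun z => ∑ a, (l a : ℂ) * ((W z).1 a * (W z).2 a)) (by
      filter_upwards [hWd, hWU] with z hz hz'
      have h3 := HasDerivAt.fun_sum (u := Finset.univ) fun a _ =>
        ((h1 hz a).mul (h2 hz a)).const_mul (l a : ℂ)
      refine h3.congr_deriv ?_
      have h4 : ∀ a, (l a : ℂ) * ((W z).2 a * (W z).2 a +
          (W z).1 a * -(kap l (W z) * l a * (W z).1 a))
          = l a * (W z).2 a ^ 2 - kap l (W z) * ((l a : ℂ) ^ 2 * (W z).1 a ^ 2) := fun a => by ring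
      simp only [h4, Finset.sum_sub_distrib, ← Finset.mul_sum]
      rw [kap, div_mul_cancel₀ _ hz', sub_self])
    filter_upwards [this] with z hz
    rw [hz, hW0]
    refine Finset.sum_eq_zero fun a _ => ?_
    simp only [p0]
    split_ifs <;> simp
  have hQ : ∀ᶠ z in 𝓝 (0 : ℂ), ∑ a, (l a : ℂ) * (W z).1 a ^ 2 = 1 := by
    have := const_of_deriv (f := fun z => ∑ a, (l a : ℂ) * (W z).1 a ^ 2) (by
      filter_upwards [hWd, hP] with z hz hz'
      have h3 := HasDerivAt.fun_sum (u := Finset.univ) fun a _ =>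
        ((h1 hz a).pow 2).const_mul (l a : ℂ)
      refine h3.congr_deriv ?_
      have h4 : ∀ a, (l a : ℂ) * (((2 : ℕ) : ℂ) * (W z).1 a ^ (2 - 1) * (W z).2 a)
          = 2 * (l a * ((W z).1 a * (W z).2 a)) := fun a => by push_cast; ring
      simp only [h4, ← Finset.mul_sum, hz', mul_zero])
    filter_upwards [this] with z hz
    rw [hz, hW0, p0_Q hl]
  have huniq : ∀ W' : ℂ → (Fin m → ℂ) × (Fin m → ℂ), W' 0 = p0 l a0 →
      (∀ᶠ z in 𝓝 (0 : ℂ), HasDerivAt W' (fld l (W' z)) z) → W =ᶠ[𝓝 0] W' := fun W' h0' hd' =>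
    CLS.S0.ode_uniq_loc (Ω := univ ×ˢ U) (isOpen_univ.prod hUo) (f := fun p => fld l p.2)
      (hZ.comp differentiableOn_snd fun p hp => hp.2) ⟨trivial, by rw [hW0]; exact hp0⟩
      (hW0.trans h0'.symm) hWd hd'
  have hct : Tendsto (fun z : ℂ => conj z) (𝓝 0) (𝓝 0) := by
    simpa using Complex.continuous_conj.tendsto 0
  have hnt : Tendsto (fun z : ℂ => -z) (𝓝 0) (𝓝 0) := by
    simpa using continuous_neg.tendsto (0 : ℂ)
  have hC := huniq (fun z => (fun a => conj ((W (conj z)).1 a), fun a => conj ((W (conj z)).2 a)))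
    (by
      simp only [map_zero, hW0, p0]
      ext a <;> simp only <;> split_ifs <;> simp)
    (by
      filter_upwards [hct.eventually hWd] with z hz
      refine HasDerivAt.prodMk (hasDerivAt_pi.mpr fun a => ?_) (hasDerivAt_pi.mpr fun a => ?_)
      · have := (h1 hz a).conj_conj
        rw [Complex.conj_conj] at this
        exact this
      · have := (h2 hz a).conj_conj
        rw [Complex.conj_conj] at this
        refine this.congr_deriv ?_
        simp [kap])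
  have hS := huniq (fun z => (fun a => sg a0 a * (W (-z)).1 a, fun a => -(sg a0 a * (W (-z)).2 a)))
    (by
      simp only [neg_zero, hW0, p0, sg]
      ext a <;> simp only <;> split_ifs <;> simp)
    (by
      filter_upwards [hnt.eventually hWd] with z hz
      refine HasDerivAt.prodMk (hasDerivAt_pi.mpr fun a => ?_) (hasDerivAt_pi.mpr fun a => ?_)
      · have := ((h1 hz a).comp z (hasDerivAt_neg z)).const_mul (sg a0 a)
        refine this.congr_deriv ?_
        simp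
      · have := (((h2 hz a).comp z (hasDerivAt_neg z)).const_mul (sg a0 a)).neg
        refine this.congr_deriv ?_
        simp only [kap, mul_pow, neg_sq, sg_sq, one_mul]
        ring)
  refine ⟨W, hW, hW0, ?_, ?_⟩
  · exact ContinuousAt.comp (f := W) (g := kap l)
      (hk.continuousOn.continuousAt (hUo.mem_nhds (by rw [hW0]; exact hp0)))
      hW.continuous.continuousAt
  · filter_upwards [hWd, hQ, hP, hct.eventually hC, hnt.eventually hS] with z h3 h4 h5 h6 h7
    refine ⟨h3, h4, h5, fun a => ?_, fun a => ?_⟩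
    · rw [h6]; simp
    · rw [h7]; simp

end Pool.Agent.P.MP_5aaff8_an
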