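import Pool.Agent.P.MP_5aaff8_an.Final

/-! The glued map: a line, a curve, and the harmonic continuation of the curve across a slanted
free boundary. -/

namespace Pool.Agent.P.MP_5aaff8_an

open MeasureTheory Filter Topology Set Metric Complex
open scoped ContDiff

variable {n m : ℕ} {i0 i1 : Fin n}

/-- `x ↦ s + t`. -/
noncomputable def eta (i0 i1 : Fin n) : EuclideanSpace ℝ (Fin n) →L[ℝ] ℂ :=
  ofRealCLM ∘L (EuclideanSpace.proj i0 + EuclideanSpace.proj i1)

/-- `x ↦ s + i t`. -/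
noncomputable def zet (i0 i1 : Fin n) : EuclideanSpace ℝ (Fin n) →L[ℝ] ℂ :=
  ofRealCLM ∘L EuclideanSpace.proj i0 + I • (ofRealCLM ∘L EuclideanSpace.proj i1)

/-- `z ↦ re z + im z`. -/
noncomputable def rim : ℂ →L[ℝ] ℝ := reCLM + imCLM

theorem eta_apply (x : EuclideanSpace ℝ (Fin n)) : eta i0 i1 x = ((x i0 + x i1 : ℝ) : ℂ) := by
  simp [eta]

theorem zet_apply (x : EuclideanSpace ℝ (Fin n)) : zet i0 i1 x = x i0 + I * x i1 := by
  simp [zet]

theorem rim_apply (z : ℂ) : rim z = z.re + z.im := by simp [rim]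

theorem sum_eta (h01 : i0 ≠ i1) : ∑ i, eta i0 i1 (EuclideanSpace.single i 1) ^ 2 = 2 := by
  rw [Finset.sum_eq_add_of_mem i0 i1 (Finset.mem_univ _) (Finset.mem_univ _) h01]
  · simp [eta_apply, h01, h01.symm]
    norm_num
  · intro i _ hi
    simp [eta_apply, hi.1.symm, hi.2.symm]

theorem sum_zet (h01 : i0 ≠ i1) : ∑ i, zet i0 i1 (EuclideanSpace.single i 1) ^ 2 = 0 := by
  rw [Finset.sum_eq_add_of_mem i0 i1 (Finset.mem_univ _) (Finset.mem_univ _) h01]
  · simp [zet_apply, h01, h01.symm]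
  · intro i _ hi
    simp [zet_apply, hi.1.symm, hi.2.symm]

theorem hasFDerivAt_piece {Λ : EuclideanSpace ℝ (Fin n) →L[ℝ] ℂ} (R : ℂ →L[ℝ] ℝ) {X : ℂ → ℂ}
    {v : ℂ} {x : EuclideanSpace ℝ (Fin n)} (hX : HasDerivAt X v (Λ x)) :
    ∃ L : EuclideanSpace ℝ (Fin n) →L[ℝ] ℝ,
      HasFDerivAt (fun y => R (X (Λ y))) L x ∧ ∀ e, L e = R (Λ e * v) :=
  ⟨_, R.hasFDerivAt.comp x ((hX.hasFDerivAt.restrictScalars ℝ).comp x Λ.hasFDerivAt),
    fun e => by simp⟩

theorem piece {Λ : EuclideanSpace ℝ (Fin n) →L[ℝ] ℂ} (R : ℂ →L[ℝ] ℝ) {X V : ℂ → ℂ} {A : ℂ}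
    {x : EuclideanSpace ℝ (Fin n)} (hX : HasDerivAt X (V (Λ x)) (Λ x))
    (hV : HasDerivAt V A (Λ x)) {f : EuclideanSpace ℝ (Fin n) → ℝ}
    {p : Fin n → EuclideanSpace ℝ (Fin n) → ℝ}
    (h : ∀ᶠ y in 𝓝 x, f y = R (X (Λ y)) ∧
      ∀ i, p i y = R (Λ (EuclideanSpace.single i 1) * V (Λ y))) :
    (DifferentiableAt ℝ f x ∧ ∀ i, fderiv ℝ f x (EuclideanSpace.single i 1) = p i x) ∧
      ∑ i, lineDeriv ℝ (p i) x (EuclideanSpace.single i 1)
        = R ((∑ i, Λ (EuclideanSpace.single i 1) ^ 2) * A) := by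
  constructor
  · obtain ⟨L, h1, h2⟩ := hasFDerivAt_piece R hX
    have h3 : HasFDerivAt f L x := h1.congr_of_eventuallyEq (h.mono fun y hy => hy.1)
    exact ⟨h3.differentiableAt, fun i => by rw [h3.fderiv, h2, h.self_of_nhds.2]⟩
  · rw [Finset.sum_mul, map_sum]
    refine Finset.sum_congr rfl fun i _ => ?_
    obtain ⟨L, h1, h2⟩ := hasFDerivAt_piece R (hV.const_mul (Λ (EuclideanSpace.single i 1)))
    have h3 : HasFDerivAt (p i) L x := h1.congr_of_eventuallyEq (h.mono fun y hy => hy.2 i)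
    rw [(h3.hasLineDerivAt _).lineDeriv, h2]
    congr 1
    ring

/-- A component of the map. -/
noncomputable def ff (i0 i1 : Fin n) (X V : ℂ → ℂ) (h : ℝ) (x : EuclideanSpace ℝ (Fin n)) : ℝ :=
  (X (max (x i0 + x i1) h : ℝ)).re + (V h).re * (x i0 + x i1 - max (x i0 + x i1) h)
    + (rim (X (x i0 + I * (max (x i1) 0 : ℝ))) - (X (x i0 + max (x i1) 0 : ℝ)).re)

/-- Its partial derivatives. -/
noncomputable def pp (i0 i1 : Fin n) (V : ℂ → ℂ) (h : ℝ) (i : Fin n)
    (x : EuclideanSpace ℝ (Fin n)) : ℝ :=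
  (eta i0 i1 (EuclideanSpace.single i 1) * V (max (x i0 + x i1) h : ℝ)).re
    + (rim (zet i0 i1 (EuclideanSpace.single i 1) * V (x i0 + I * (max (x i1) 0 : ℝ)))
      - (eta i0 i1 (EuclideanSpace.single i 1) * V (x i0 + max (x i1) 0 : ℝ)).re)

theorem ae_sum_ne (h01 : i0 ≠ i1) (h : ℝ) : ∀ᵐ x : EuclideanSpace ℝ (Fin n), x i0 + x i1 ≠ h := by
  let φ : EuclideanSpace ℝ (Fin n) →L[ℝ] ℝ := EuclideanSpace.proj i0 + EuclideanSpace.proj i1
  have h1 := Measure.addHaar_submodule (volume : Measure (EuclideanSpace ℝ (Fin n)))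
    (LinearMap.ker (φ : EuclideanSpace ℝ (Fin n) →ₗ[ℝ] ℝ)) (by
      intro h
      have : EuclideanSpace.single i0 (1 : ℝ) ∈ LinearMap.ker
          (φ : EuclideanSpace ℝ (Fin n) →ₗ[ℝ] ℝ) := by
        rw [h]; trivial
      simp [φ, h01.symm] at this)
  have h2 : ∀ᵐ x : EuclideanSpace ℝ (Fin n), x i0 + x i1 ≠ 0 := by
    rw [ae_iff]
    convert! h1 using 2
    ext x
    simp [φ]
  filter_upwards [(measurePreserving_add_right volume
    (EuclideanSpace.single i0 (-h))).quasiMeasurePreserving.ae h2] with x hx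
  intro h3
  apply hx
  simp [h01.symm]
  linarith

theorem differentiableAt_max {s c : ℝ} (h : s ≠ c) : DifferentiableAt ℝ (fun s => max s c) s := by
  rcases lt_or_gt_of_ne h with h | h
  · refine (differentiableAt_const c).congr_of_eventuallyEq ?_
    filter_upwards [Iio_mem_nhds h] with y hy
    exact max_eq_right (le_of_lt hy)
  · refine differentiableAt_id.congr_of_eventuallyEq ?_
    filter_upwards [Ioi_mem_nhds h] with y hy
    exact max_eq_left (le_of_lt hy)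

theorem glue (h01 : i0 ≠ i1) (h : ℝ) {G : ℝ × ℝ × ℝ × ℝ → ℝ} (hG : ContDiff ℝ 1 G)
    {F : EuclideanSpace ℝ (Fin n) → ℝ}
    (hF : ∀ x, F x = G (max (x i0 + x i1) h, max (x i1) 0, x i0, x i1)) :
    LocallyLipschitz F ∧ ∀ᵐ x, DifferentiableAt ℝ F x := by
  obtain rfl : F = _ := funext hF
  constructor
  · have h0 : LocallyLipschitz fun x : EuclideanSpace ℝ (Fin n) => x i0 :=
      (EuclideanSpace.proj i0 : EuclideanSpace ℝ (Fin n) →L[ℝ] ℝ).lipschitz.locallyLipschitz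
    have h1 : LocallyLipschitz fun x : EuclideanSpace ℝ (Fin n) => x i1 :=
      (EuclideanSpace.proj i1 : EuclideanSpace ℝ (Fin n) →L[ℝ] ℝ).lipschitz.locallyLipschitz
    have hm : ∀ c : ℝ, LocallyLipschitz fun s : ℝ => max s c := fun c =>
      (LipschitzWith.id.max_const c).locallyLipschitz
    exact hG.locallyLipschitz.comp
      (((hm h).comp (h0.add h1)).prodMk (((hm 0).comp h1).prodMk (h0.prodMk h1)))
  · filter_upwards [ae_sum_ne h01 h, ae_coord_ne_zero i1] with x hx0 hx1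
    have h0 : DifferentiableAt ℝ (fun x : EuclideanSpace ℝ (Fin n) => x i0) x := by fun_prop
    have h1 : DifferentiableAt ℝ (fun x : EuclideanSpace ℝ (Fin n) => x i1) x := by fun_prop
    have h2 : DifferentiableAt ℝ (fun x : EuclideanSpace ℝ (Fin n) => max (x i0 + x i1) h) x :=
      (differentiableAt_max hx0).comp x (f := fun x : EuclideanSpace ℝ (Fin n) => x i0 + x i1)
        (h0.add h1)
    have h3 : DifferentiableAt ℝ (fun x : EuclideanSpace ℝ (Fin n) => max (x i1) 0) x :=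
      (differentiableAt_max hx1).comp x (f := fun x : EuclideanSpace ℝ (Fin n) => x i1) h1
    exact (hG.differentiable one_ne_zero _).comp x (h2.prodMk (h3.prodMk (h0.prodMk h1)))

theorem cd_re {X : ℂ → ℂ} (hX : ContDiff ℝ 1 X) (R : ℂ →L[ℝ] ℝ) (c : ℂ)
    {g : ℝ × ℝ × ℝ × ℝ → ℂ} (hg : ContDiff ℝ 1 g) : ContDiff ℝ 1 fun z => R (c * X (g z)) :=
  R.contDiff.comp (contDiff_const.mul (hX.comp hg))

theorem cd_of {g : ℝ × ℝ × ℝ × ℝ → ℝ} (hg : ContDiff ℝ 1 g) :
    ContDiff ℝ 1 fun z => ((g z : ℝ) : ℂ) := ofRealCLM.contDiff.comp hg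

theorem ff_glue (h01 : i0 ≠ i1) {X : ℂ → ℂ} (hX : ContDiff ℝ 1 X) (V : ℂ → ℂ) (h : ℝ) :
    LocallyLipschitz (ff i0 i1 X V h) ∧ ∀ᵐ x, DifferentiableAt ℝ (ff i0 i1 X V h) x := by
  refine glue h01 h (G := fun z => reCLM (1 * X (z.1 : ℝ)) + (V h).re * (z.2.2.1 + z.2.2.2 - z.1)
    + (rim (1 * X ((z.2.2.1 : ℝ) + I * (z.2.1 : ℝ))) - reCLM (1 * X (z.2.2.1 + z.2.1 : ℝ))))
    ?_ fun x => by simp only [ff, one_mul, reCLM_apply]
  refine ((cd_re hX _ _ (cd_of (by fun_prop))).add (by fun_prop)).add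
    ((cd_re hX _ _ ?_).sub (cd_re hX _ _ (cd_of (by fun_prop))))
  exact (cd_of (by fun_prop)).add (contDiff_const.mul (cd_of (by fun_prop)))

theorem pp_glue (h01 : i0 ≠ i1) {V : ℂ → ℂ} (hV : ContDiff ℝ 1 V) (h : ℝ) (i : Fin n) :
    LocallyLipschitz (pp i0 i1 V h i) ∧ ∀ᵐ x, DifferentiableAt ℝ (pp i0 i1 V h i) x := by
  refine glue h01 h (G := fun z => reCLM (eta i0 i1 (EuclideanSpace.single i 1) * V (z.1 : ℝ))
    + (rim (zet i0 i1 (EuclideanSpace.single i 1) * V ((z.2.2.1 : ℝ) + I * (z.2.1 : ℝ)))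
      - reCLM (eta i0 i1 (EuclideanSpace.single i 1) * V (z.2.2.1 + z.2.1 : ℝ))))
    ?_ fun x => by simp only [pp, reCLM_apply]
  refine (cd_re hV _ _ (cd_of (by fun_prop))).add
    ((cd_re hV _ _ ?_).sub (cd_re hV _ _ (cd_of (by fun_prop))))
  exact (cd_of (by fun_prop)).add (contDiff_const.mul (cd_of (by fun_prop)))

section Regions

variable {X V : ℂ → ℂ} {h : ℝ} {x : EuclideanSpace ℝ (Fin n)}

theorem region_up (h1 : h ≤ x i0 + x i1) (h2 : 0 ≤ x i1) :
    ff i0 i1 X V h x = rim (X (zet i0 i1 x)) ∧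
      ∀ i, pp i0 i1 V h i x = rim (zet i0 i1 (EuclideanSpace.single i 1) * V (zet i0 i1 x)) := by
  simp only [ff, pp, max_eq_left h1, max_eq_left h2, ← zet_apply]
  exact ⟨by ring, fun i => by ring⟩

theorem region_low (h2 : x i1 ≤ 0) (hX : (X (x i0)).im = 0) (hV : (V (x i0)).im = 0) :
    ff i0 i1 X V h x = (X (max (x i0 + x i1) h : ℝ)).re
        + (V h).re * (x i0 + x i1 - max (x i0 + x i1) h) ∧
      ∀ i, pp i0 i1 V h i x
        = (eta i0 i1 (EuclideanSpace.single i 1) * V (max (x i0 + x i1) h : ℝ)).re := by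
  simp only [ff, pp, max_eq_right h2, ofReal_zero, mul_zero, add_zero, rim_apply, hX]
  refine ⟨by ring, fun i => ?_⟩
  rw [add_eq_left, eta_apply, zet_apply]
  generalize EuclideanSpace.single i (1 : ℝ) = e
  simp [hV]
  ring

theorem region_mid (h1 : h ≤ x i0 + x i1) (h2 : x i1 ≤ 0) (hX : (X (x i0)).im = 0)
    (hV : (V (x i0)).im = 0) :
    ff i0 i1 X V h x = reCLM (X (eta i0 i1 x)) ∧
      ∀ i, pp i0 i1 V h i x
        = reCLM (eta i0 i1 (EuclideanSpace.single i 1) * V (eta i0 i1 x)) := by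
  obtain ⟨h3, h4⟩ := region_low (h := h) h2 hX hV
  simp only [h3, h4, max_eq_left h1, ← eta_apply, reCLM_apply]
  exact ⟨by ring, fun _ => trivial⟩

theorem region_line (h1 : x i0 + x i1 ≤ h) (h2 : x i1 ≤ 0) (hX : (X (x i0)).im = 0)
    (hV : (V (x i0)).im = 0) :
    ff i0 i1 X V h x = reCLM (X h + V h * (eta i0 i1 x - h)) ∧
      ∀ i, pp i0 i1 V h i x = reCLM (eta i0 i1 (EuclideanSpace.single i 1) * V h) := by
  obtain ⟨h3, h4⟩ := region_low (h := h) h2 hX hV
  simp only [h3, h4, max_eq_right h1, reCLM_apply]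
  refine ⟨?_, fun _ => trivial⟩
  simp [eta_apply]

end Regions

theorem isW12_of {c : EuclideanSpace ℝ (Fin n)} {r : ℝ}
    {u : EuclideanSpace ℝ (Fin n) → EuclideanSpace ℝ (Fin m)}
    {Du : EuclideanSpace ℝ (Fin n) → Matrix (Fin m) (Fin n) ℝ} (hc : Continuous u)
    (hu : ∀ a, LocallyLipschitz fun x => u x a)
    (hd : ∀ a, ∀ᵐ x, DifferentiableAt ℝ (fun x => u x a) x)
    (hD : ∀ a i, Continuous fun x => Du x a i)
    (h : ∀ᵐ x, x ∈ ball c r → ∀ a i,
      fderiv ℝ (fun x => u x a) x (EuclideanSpace.single i 1) = Du x a i) :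
    IsW12 (ball c r) u Du := by
  have hfin : IsFiniteMeasure (volume.restrict (ball c r)) :=
    isFiniteMeasure_restrict.mpr measure_ball_lt_top.ne
  have hL2 : ∀ {Y : Type} [NormedAddCommGroup Y] [SecondCountableTopology Y]
      {f : EuclideanSpace ℝ (Fin n) → Y}, Continuous f →
      MemLp f 2 (volume.restrict (ball c r)) := by
    intro Y _ _ f hf
    obtain ⟨B, hB⟩ := (isCompact_closedBall c r).exists_bound_of_continuousOn hf.continuousOn
    exact MemLp.of_bound hf.aestronglyMeasurable B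
      ((ae_restrict_iff' measurableSet_ball).mpr
        (Eventually.of_forall fun x hx => hB x (ball_subset_closedBall hx)))
  refine ⟨hL2 hc, fun a i => hL2 (hD a i), fun φ hφ hφc hφs a i => ?_⟩
  have key : ∀ ψ : EuclideanSpace ℝ (Fin n) → ℝ, ContDiff ℝ ∞ ψ →
      Continuous fun x => fderiv ℝ ψ x (EuclideanSpace.single i 1) := fun ψ hψ =>
    (hψ.continuous_fderiv (by simp)).clm_apply continuous_const
  have hdc := key φ hφ
  have hdk : HasCompactSupport fun x => fderiv ℝ φ x (EuclideanSpace.single i 1) :=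
    hφc.fderiv_apply (𝕜 := ℝ) _
  have hz : ∀ x, x ∉ tsupport φ → fderiv ℝ φ x (EuclideanSpace.single i 1) = 0 := fun x hx => by
    simp [fderiv_of_notMem_tsupport ℝ hx]
  have hGW : GW volume (EuclideanSpace.single i 1) φ
      fun x => fderiv ℝ φ x (EuclideanSpace.single i 1) := fun ψ hψ hψc =>
    integral_mul_fderiv_eq_neg_fderiv_mul_of_integrable
      ((hdc.mul hψ.continuous).integrable_of_hasCompactSupport hψc.mul_left)
      ((hφ.continuous.mul (key ψ hψ)).integrable_of_hasCompactSupport hφc.mul_right)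
      ((hφ.continuous.mul hψ.continuous).integrable_of_hasCompactSupport hφc.mul_right)
      (fun x _ => hφ.differentiable (by simp) x) (fun x _ => hψ.differentiable (by simp) x)
  have h1 := (ibp (hφ.continuous.memLp_of_hasCompactSupport hφc)
    (hdc.memLp_of_hasCompactSupport hdk) (hφ.continuous.integrable_of_hasCompactSupport hφc) hGW
    hφc (fun x hx => image_eq_zero_of_notMem_tsupport hx) hz (hu a)
    (q := fun x => fderiv ℝ (fun x => u x a) x (EuclideanSpace.single i 1))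
    (measurable_fderiv_apply_const ℝ _ _).aestronglyMeasurable
    ((hd a).mono fun x hx => hx.hasFDerivAt.hasLineDerivAt _)).2
  rw [setIntegral_eq_integral_of_forall_compl_eq_zero,
    setIntegral_eq_integral_of_forall_compl_eq_zero, h1]
  · congr 1
    refine integral_congr_ae ?_
    filter_upwards [h] with x hx
    by_cases hx1 : x ∈ ball c r
    · rw [hx hx1]
    · rw [image_eq_zero_of_notMem_tsupport fun h => hx1 (hφs h), mul_zero, mul_zero]
  · intro x hx
    rw [image_eq_zero_of_notMem_tsupport fun h => hx (hφs h), mul_zero]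
  · intro x hx
    rw [hz x fun h => hx (hφs h), mul_zero]

theorem lt_of_deriv_pos {f f' : ℝ → ℝ} {T : ℝ} (hT : 0 < T)
    (hf : ∀ t ∈ Icc 0 T, HasDerivAt f (f' t) t) (hpos : ∀ t ∈ Ioo 0 T, 0 < f' t) : f 0 < f T := by
  obtain ⟨c, hc, h⟩ := exists_hasDerivAt_eq_slope f f' hT
    (fun t ht => (hf t ht).continuousAt.continuousWithinAt) fun t ht => hf t (Ioo_subset_Icc_self ht)
  have := hpos c hc
  rw [h, sub_zero, div_pos_iff_of_pos_right hT] at this
  linarith

theorem hasDerivAt_vert {X : ℂ → ℂ} {v : ℂ} {s t : ℝ} (c : ℂ) (hX : HasDerivAt X v (s + I * t)) :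
    HasDerivAt (fun t : ℝ => rim (c * X (s + I * t))) (rim (c * (I * v))) t := by
  have h1 : HasDerivAt (fun t : ℝ => (s : ℂ) + I * t) I t := by
    simpa using ((ofRealCLM.hasDerivAt (x := t)).const_mul I).const_add (s : ℂ)
  have h2 := ((hX.const_mul c).hasFDerivAt.restrictScalars ℝ).comp_hasDerivAt t h1
  refine (rim.hasFDerivAt.comp_hasDerivAt t h2).congr_deriv ?_
  simp
  congr 1
  ring

end Pool.Agent.P.MP_5aaff8_an
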