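import Pool.Agent.P.MP_5aaff8_an.Local

/-! A sufficient condition for minimality, for a general constraint set and a thin domain. -/

namespace Pool.Agent.P.MP_5aaff8_an

open MeasureTheory Filter Topology Set
open scoped ContDiff

theorem minimal_gen {n m : ℕ} {Ω : Set (EuclideanSpace ℝ (Fin n))} (hΩ : IsOpen Ω) (i0 : Fin n)
    {δ : ℝ} (hδ : 0 < δ) {C : Set (EuclideanSpace ℝ (Fin m))}
    (hthin : ∀ x ∈ Ω, x + δ • EuclideanSpace.single i0 1 ∉ Ω)
    {u : EuclideanSpace ℝ (Fin n) → EuclideanSpace ℝ (Fin m)}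
    {Du : EuclideanSpace ℝ (Fin n) → Matrix (Fin m) (Fin n) ℝ} (hu : IsW12 Ω u Du)
    (q : Fin m → Fin n → EuclideanSpace ℝ (Fin n) → ℝ)
    (hp : ∀ a i, LocallyLipschitz fun x => Du x a i) (hq : ∀ a i, Measurable (q a i))
    (hpq : ∀ a i, ∀ᵐ x, HasLineDerivAt ℝ (fun x => Du x a i) (q a i x) x
      (EuclideanSpace.single i 1))
    (hEL : ∀ᵐ x, x ∈ Ω → ∀ y ∈ C,
      0 ≤ ∑ a, ((y a - u x a) ^ 2 / δ ^ 2 - 2 * ((∑ i, q a i x) * (y a - u x a))))
    {Ω' : Set (EuclideanSpace ℝ (Fin n))} (hΩ' : IsOpen Ω') (hK : IsCompact (closure Ω'))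
    (hsub : closure Ω' ⊆ Ω)
    {v : EuclideanSpace ℝ (Fin n) → EuclideanSpace ℝ (Fin m)}
    {Dv : EuclideanSpace ℝ (Fin n) → Matrix (Fin m) (Fin n) ℝ} (hv : IsW12 Ω v Dv)
    (hv1 : ∀ᵐ x ∂(volume.restrict Ω), v x ∈ C)
    (hvu : ∀ᵐ x ∂(volume.restrict (Ω \ Ω')), v x = u x) :
    energy Ω' Du ≤ energy Ω' Dv := by
  have hsub' : Ω' ⊆ Ω := subset_closure.trans hsub
  have hm := hΩ'.measurableSet
  set w : Fin m → EuclideanSpace ℝ (Fin n) → ℝ := fun a =>
    Ω'.indicator (fun x => v x a - u x a) with hwdef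
  set g : Fin m → Fin n → EuclideanSpace ℝ (Fin n) → ℝ := fun a i =>
    Ω'.indicator (fun x => Dv x a i - Du x a i) with hgdef
  have hw0 : ∀ a, MemLp (fun x => v x a - u x a) 2 (volume.restrict Ω) := fun a =>
    (memLp_coord hv.1 a).sub (memLp_coord hu.1 a)
  have hg0 : ∀ a i, MemLp (fun x => Dv x a i - Du x a i) 2 (volume.restrict Ω) := fun a i =>
    (hv.2.1 a i).sub (hu.2.1 a i)
  have hw : ∀ a, MemLp (w a) 2 volume := fun a => memLp_indicator_of_subset hm hsub' (hw0 a)
  have hg : ∀ a i, MemLp (g a i) 2 volume := fun a i =>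
    memLp_indicator_of_subset hm hsub' (hg0 a i)
  have hw1 : ∀ a, Integrable (w a) volume := fun a =>
    integrable_indicator_of_subset hm hsub' hK (hw0 a)
  have hGW : ∀ a i, GW volume (EuclideanSpace.single i 1) (w a) (g a i) := by
    intro a i
    refine localize hΩ hΩ' hK hsub (hw0 a) (hg0 a i) ?_ ?_
    · intro φ hφ hφc hφs
      have hφ2 : MemLp φ 2 (volume.restrict Ω) :=
        (hφ.continuous.memLp_of_hasCompactSupport hφc).restrict Ω
      have hdc : Continuous fun x => fderiv ℝ φ x (EuclideanSpace.single i 1) :=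
        (hφ.continuous_fderiv (by simp)).clm_apply continuous_const
      have hφ3 : MemLp (fun x => fderiv ℝ φ x (EuclideanSpace.single i 1)) 2
          (volume.restrict Ω) :=
        (hdc.memLp_of_hasCompactSupport (hφc.fderiv_apply (𝕜 := ℝ) _)).restrict Ω
      have h1 := hv.2.2 φ hφ hφc hφs a i
      have h2 := hu.2.2 φ hφ hφc hφs a i
      simp only [sub_mul]
      have j1 : Integrable (fun x => v x a * fderiv ℝ φ x (EuclideanSpace.single i 1))
        (volume.restrict Ω) := (memLp_coord hv.1 a).integrable_mul hφ3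
      have j2 : Integrable (fun x => u x a * fderiv ℝ φ x (EuclideanSpace.single i 1))
        (volume.restrict Ω) := (memLp_coord hu.1 a).integrable_mul hφ3
      have j3 : Integrable (fun x => Dv x a i * φ x) (volume.restrict Ω) :=
        (hv.2.1 a i).integrable_mul hφ2
      have j4 : Integrable (fun x => Du x a i * φ x) (volume.restrict Ω) :=
        (hu.2.1 a i).integrable_mul hφ2
      rw [integral_sub j1 j2, integral_sub j3 j4, h1, h2]
      ring
    · filter_upwards [hvu] with x hx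
      rw [hx, sub_self]
  have hwK : ∀ a x, x ∉ closure Ω' → w a x = 0 := fun a x hx =>
    indicator_of_notMem (fun h => hx (subset_closure h)) _
  have hgK : ∀ a i x, x ∉ closure Ω' → g a i x = 0 := fun a i x hx =>
    indicator_of_notMem (fun h => hx (subset_closure h)) _
  have hibp := fun a i => ibp (hw a) (hg a i) (hw1 a) (hGW a i) hK (hwK a) (hgK a i) (hp a i)
    (hq a i).aestronglyMeasurable (hpq a i)
  have hpoin : ∀ a, ∫ x, w a x ^ 2 / δ ^ 2 ≤ ∫ x, g a i0 x ^ 2 := by
    intro a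
    have hG : GW volume (δ • EuclideanSpace.single i0 1) (w a) (fun x => δ * g a i0 x) := by
      intro φ hφ hφc
      have h1 := hGW a i0 φ hφ hφc
      simp only [map_smul, smul_eq_mul]
      have e1 : ∀ x, w a x * (δ * fderiv ℝ φ x (EuclideanSpace.single i0 1))
          = δ * (w a x * fderiv ℝ φ x (EuclideanSpace.single i0 1)) := fun x => by ring
      have e2 : ∀ x, δ * g a i0 x * φ x = δ * (g a i0 x * φ x) := fun x => by ring
      simp only [e1, e2, integral_const_mul, h1, mul_neg]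
    have h2 := poincare (hw a) ((hg a i0).const_mul δ) (hw1 a) hG (fun x => by
      by_cases hx : x ∈ Ω'
      · right
        exact indicator_of_notMem (fun h => hthin x (hsub' hx) (hsub' h)) _
      · left
        exact indicator_of_notMem hx _)
    simp only [mul_pow, integral_const_mul] at h2
    rw [integral_div, div_le_iff₀ (by positivity)]
    linarith
  have hres : ∀ {f : EuclideanSpace ℝ (Fin n) → ℝ}, MemLp f 2 (volume.restrict Ω) →
      MemLp f 2 (volume.restrict Ω') := fun hf =>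
    hf.mono_measure (Measure.restrict_mono hsub' le_rfl)
  have hEu : energy Ω' Du = ∑ a, ∑ i, ∫ x in Ω', Du x a i ^ 2 := by
    unfold energy
    rw [integral_finsetSum _ fun a _ => integrable_finsetSum _ fun i _ =>
      (hres (hu.2.1 a i)).integrable_sq]
    exact Finset.sum_congr rfl fun a _ =>
      integral_finsetSum _ fun i _ => (hres (hu.2.1 a i)).integrable_sq
  have hEv : energy Ω' Dv = ∑ a, ∑ i, ∫ x in Ω', Dv x a i ^ 2 := by
    unfold energy
    rw [integral_finsetSum _ fun a _ => integrable_finsetSum _ fun i _ =>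
      (hres (hv.2.1 a i)).integrable_sq]
    exact Finset.sum_congr rfl fun a _ =>
      integral_finsetSum _ fun i _ => (hres (hv.2.1 a i)).integrable_sq
  have hexp : ∀ a i, ∫ x in Ω', Dv x a i ^ 2
      = (∫ x in Ω', Du x a i ^ 2) + (∫ x, g a i x ^ 2) - 2 * ∫ x, q a i x * w a x := by
    intro a i
    have e1 : ∫ x, g a i x ^ 2 = ∫ x in Ω', (Dv x a i - Du x a i) ^ 2 := by
      rw [← integral_indicator hm]
      congr 1
      funext x
      by_cases hx : x ∈ Ω' <;> simp [hgdef, hx]
    have e2 : ∫ x, Du x a i * g a i x = ∫ x in Ω', Du x a i * (Dv x a i - Du x a i) := by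
      rw [← integral_indicator hm]
      congr 1
      funext x
      by_cases hx : x ∈ Ω' <;> simp [hgdef, hx]
    have e3 := (hibp a i).2
    rw [e2] at e3
    have i1 := (hres (hu.2.1 a i)).integrable_sq
    have i2 := (hres (hg0 a i)).integrable_sq
    have i3 : Integrable (fun x => Du x a i * (Dv x a i - Du x a i)) (volume.restrict Ω') :=
      (hres (hu.2.1 a i)).integrable_mul (hres (hg0 a i))
    have e4 : ∫ x in Ω', Dv x a i ^ 2 = ∫ x in Ω', (Du x a i ^ 2 + (Dv x a i - Du x a i) ^ 2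
        + 2 * (Du x a i * (Dv x a i - Du x a i))) := by
      congr 1
      funext x
      ring
    have i4 : Integrable (fun x => Du x a i ^ 2 + (Dv x a i - Du x a i) ^ 2)
      (volume.restrict Ω') := i1.add i2
    rw [e4, integral_add i4 (i3.const_mul 2), integral_add i1 i2, integral_const_mul,
      e3, e1]
    ring
  have hpos : 0 ≤ ∑ a, ((∫ x, w a x ^ 2 / δ ^ 2) - 2 * ∑ i, ∫ x, q a i x * w a x) := by
    have e1 : ∀ a, (∫ x, w a x ^ 2 / δ ^ 2) - 2 * ∑ i, ∫ x, q a i x * w a x
        = ∫ x, (w a x ^ 2 / δ ^ 2 - 2 * ∑ i, q a i x * w a x) := by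
      intro a
      rw [integral_sub ((hw a).integrable_sq.div_const _)
        ((integrable_finsetSum _ fun i _ => (hibp a i).1).const_mul 2), integral_const_mul,
        integral_finsetSum _ fun i _ => (hibp a i).1]
    have j1 : ∀ a, Integrable (fun x => w a x ^ 2 / δ ^ 2 - 2 * ∑ i, q a i x * w a x) := fun a =>
      ((hw a).integrable_sq.div_const _).sub
        ((integrable_finsetSum _ fun i _ => (hibp a i).1).const_mul 2)
    rw [Finset.sum_congr rfl fun a _ => e1 a, ← integral_finsetSum _ fun a _ => j1 a]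
    refine integral_nonneg_of_ae ?_
    filter_upwards [(ae_restrict_iff' hΩ.measurableSet).mp hv1, hEL] with x hx hx'
    by_cases hx1 : x ∈ Ω'
    · have hwx : ∀ a, w a x = v x a - u x a := fun a => indicator_of_mem hx1 _
      simp only [Pi.zero_apply, ← Finset.sum_mul, hwx]
      exact hx' (hsub' hx1) _ (hx (hsub' hx1))
    · have hwx : ∀ a, w a x = 0 := fun a => indicator_of_notMem hx1 _
      simp [hwx]
  rw [hEu, hEv]
  have h5 : ∀ a, (∑ i, ∫ x in Ω', Du x a i ^ 2)
      + ((∫ x, w a x ^ 2 / δ ^ 2) - 2 * ∑ i, ∫ x, q a i x * w a x) ≤ ∑ i, ∫ x in Ω', Dv x a i ^ 2 := by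
    intro a
    rw [Finset.sum_congr rfl fun i _ => hexp a i, Finset.sum_sub_distrib, Finset.sum_add_distrib,
      ← Finset.mul_sum]
    have h6 : ∫ x, g a i0 x ^ 2 ≤ ∑ i, ∫ x, g a i x ^ 2 :=
      Finset.single_le_sum (f := fun i => ∫ x, g a i x ^ 2)
        (fun i _ => integral_nonneg fun x => sq_nonneg _) (Finset.mem_univ i0)
    have := hpoin a
    linarith
  have h7 := Finset.sum_le_sum fun a (_ : a ∈ Finset.univ) => h5 a
  rw [Finset.sum_add_distrib] at h7
  linarith

end Pool.Agent.P.MP_5aaff8_an
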