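import Pool.Agent.P.MP_5aaff8_an.Proj.Defs

/-! The nearest point projection onto an ellipsoid near a boundary point. -/

namespace Pool.Agent.P.MP_5aaff8_an

open Filter Topology Set Metric

variable {n m : ℕ} {l : Fin m → ℝ}

theorem exists_proj (l : Fin m → ℝ) : ∃ Pr, IsNearestProj (ellipsoid l) Pr := by
  have hc : IsClosed (ellipsoid l) := isClosed_le (by fun_prop) continuous_const
  have hne : (ellipsoid l).Nonempty := ⟨0, by simp [ellipsoid]⟩
  choose Pr h1 h2 using fun y => hc.exists_infDist_eq_dist hne y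
  exact ⟨Pr, fun y => ⟨h1 y, fun z hz => h2 y ▸ infDist_le_dist_of_mem hz⟩⟩

theorem closure_compl_sub {y : EuclideanSpace ℝ (Fin m)} (hy : y ∈ closure (ellipsoid l)ᶜ) :
    1 ≤ ∑ a, l a * y a ^ 2 := by
  have hc : IsClosed {y : EuclideanSpace ℝ (Fin m) | 1 ≤ ∑ a, l a * y a ^ 2} :=
    isClosed_le continuous_const (by fun_prop)
  have hs : (ellipsoid l)ᶜ ⊆ {y : EuclideanSpace ℝ (Fin m) | 1 ≤ ∑ a, l a * y a ^ 2} :=
    fun z (hz : ¬ ∑ a, l a * z a ^ 2 ≤ 1) => le_of_lt (not_le.mp hz)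
  exact closure_minimal hs hc hy

theorem mem_closure_compl {y : EuclideanSpace ℝ (Fin m)} (hy : 1 ≤ ∑ a, l a * y a ^ 2) :
    y ∈ closure (ellipsoid l)ᶜ := by
  have ht : Tendsto (fun t : ℝ => t • y) (𝓝[>] 1) (𝓝 y) := by
    have : Continuous fun t : ℝ => t • y := by fun_prop
    simpa using (this.tendsto 1).mono_left nhdsWithin_le_nhds
  refine mem_closure_of_tendsto ht ?_
  filter_upwards [self_mem_nhdsWithin] with t (ht : 1 < t)
  simp only [ellipsoid, mem_compl_iff, mem_ofPred_eq, not_le, PiLp.smul_apply, smul_eq_mul]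
  have : ∑ a, l a * (t * y a) ^ 2 = t ^ 2 * ∑ a, l a * y a ^ 2 := by
    rw [Finset.mul_sum]
    exact Finset.sum_congr rfl fun a _ => by ring
  rw [this]
  nlinarith

theorem proj_eq (hl : ∀ a, 0 < l a) {Pr : EuclideanSpace ℝ (Fin m) → EuclideanSpace ℝ (Fin m)}
    (hPr : IsNearestProj (ellipsoid l) Pr) {y : EuclideanSpace ℝ (Fin m)} {μ : ℝ} (hμ : 0 ≤ μ)
    (h : ∑ a, l a * (y a / (1 + μ * l a)) ^ 2 = 1) (a : Fin m) :
    Pr y a = y a / (1 + μ * l a) := by
  set P : EuclideanSpace ℝ (Fin m) := WithLp.toLp 2 fun a => y a / (1 + μ * l a) with hP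
  have hPa : ∀ a, y a / (1 + μ * l a) = P a := fun a => rfl
  have hy : ∀ a, y a = P a * (1 + μ * l a) := fun a => by
    have := mul_nonneg hμ (hl a).le
    rw [← hPa]
    field_simp
  simp only [hPa] at h ⊢
  have h1 : ∑ a, l a * Pr y a ^ 2 ≤ 1 := (hPr y).1
  have h2 := (hPr y).2 P (le_of_eq h)
  have h3 : dist y (Pr y) ^ 2 ≤ dist y P ^ 2 := pow_le_pow_left₀ dist_nonneg h2 2
  rw [EuclideanSpace.dist_sq_eq, EuclideanSpace.dist_sq_eq] at h3
  simp only [Real.dist_eq, sq_abs] at h3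
  have h4 : ∑ a, (y a - Pr y a) ^ 2 = ∑ a, (y a - P a) ^ 2
      + ∑ a, (1 + μ * l a) * (P a - Pr y a) ^ 2
      + μ * (∑ a, l a * P a ^ 2 - ∑ a, l a * Pr y a ^ 2) := by
    rw [← Finset.sum_sub_distrib, Finset.mul_sum, ← Finset.sum_add_distrib,
      ← Finset.sum_add_distrib]
    refine Finset.sum_congr rfl fun a _ => ?_
    generalize Pr y a = z
    rw [hy a]
    ring
  have h5 : (1 + μ * l a) * (P a - Pr y a) ^ 2 ≤ ∑ a, (1 + μ * l a) * (P a - Pr y a) ^ 2 :=
    Finset.single_le_sum (f := fun a => (1 + μ * l a) * (P a - Pr y a) ^ 2)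
      (fun a _ => mul_nonneg (by have := mul_nonneg hμ (hl a).le; linarith) (sq_nonneg _))
      (Finset.mem_univ a)
  have h6 : 0 ≤ μ * (∑ a, l a * P a ^ 2 - ∑ a, l a * Pr y a ^ 2) :=
    mul_nonneg hμ (by linarith)
  have h7 := mul_nonneg hμ (hl a).le
  have h8 : (P a - Pr y a) ^ 2 ≤ 0 := by nlinarith [sq_nonneg (P a - Pr y a)]
  have h9 : P a - Pr y a = 0 := pow_eq_zero_iff (n := 2) (by norm_num) |>.mp
    (le_antisymm h8 (sq_nonneg _))
  linarith

theorem exists_mu (hl : ∀ a, 0 < l a) {y0 : EuclideanSpace ℝ (Fin m)}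
    (h0 : ∑ a, l a * y0 a ^ 2 = 1) :
    ∃ μ : EuclideanSpace ℝ (Fin m) → ℝ, ContDiffAt ℝ 1 μ y0 ∧ μ y0 = 0 ∧
      ∀ᶠ y in 𝓝 y0, ∑ a, l a * (y a / (1 + μ y * l a)) ^ 2 = 1 := by
  set f : EuclideanSpace ℝ (Fin m) × ℝ → ℝ :=
    fun p => ∑ a, l a * (p.1 a / (1 + p.2 * l a)) ^ 2 with hf
  have hc : ContDiffAt ℝ 1 f (y0, 0) := by
    refine ContDiffAt.sum fun a _ => contDiffAt_const.mul (ContDiffAt.pow ?_ 2)
    exact ContDiffAt.div (by fun_prop) (by fun_prop) (by simp)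
  have hd : HasDerivAt (fun t : ℝ => f (y0, t)) (-2 * ∑ a, l a ^ 2 * y0 a ^ 2) 0 := by
    have h1 := HasDerivAt.fun_sum (u := Finset.univ) fun a _ =>
      (((hasDerivAt_const (0 : ℝ) (y0 a)).div
        (((hasDerivAt_id (0 : ℝ)).mul_const (l a)).const_add 1) (by simp)).pow 2).const_mul (l a)
    refine h1.congr_deriv ?_
    rw [Finset.mul_sum]
    refine Finset.sum_congr rfl fun a _ => ?_
    simp
    ring
  have hpos : 0 < ∑ a, l a ^ 2 * y0 a ^ 2 := by
    by_contra h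
    have h1 : ∑ a, l a ^ 2 * y0 a ^ 2 = 0 :=
      le_antisymm (not_lt.mp h) (Finset.sum_nonneg fun a _ => by positivity)
    rw [Finset.sum_eq_zero_iff_of_nonneg fun a _ => by positivity] at h1
    have h2 : ∑ a, l a * y0 a ^ 2 = 0 := Finset.sum_eq_zero fun a ha => by
      have h3 := h1 a ha
      have h4 := (hl a).ne'
      simp only [mul_eq_zero, pow_eq_zero_iff (two_ne_zero), h4, false_or] at h3
      simp [h3]
    linarith
  have hinv : (fderiv ℝ f (y0, 0) ∘L
      ContinuousLinearMap.inr ℝ (EuclideanSpace ℝ (Fin m)) ℝ).IsInvertible := by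
    have h1 : HasFDerivAt (fun t : ℝ => f (y0, t)) (fderiv ℝ f (y0, 0) ∘L
        ContinuousLinearMap.inr ℝ (EuclideanSpace ℝ (Fin m)) ℝ) 0 :=
      (hc.differentiableAt one_ne_zero).hasFDerivAt.comp (0 : ℝ) (hasFDerivAt_prodMk_right y0 0)
    rw [h1.unique hd.hasFDerivAt]
    refine ⟨ContinuousLinearEquiv.unitsEquivAut ℝ (Units.mk0 (-2 * ∑ a, l a ^ 2 * y0 a ^ 2)
      (by linarith)), ?_⟩
    ext
    simp
  refine ⟨hc.implicitFunction one_ne_zero hinv, hc.contDiffAt_implicitFunction one_ne_zero hinv,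
    hc.implicitFunction_apply_self one_ne_zero hinv, ?_⟩
  filter_upwards [hc.eventually_apply_implicitFunction one_ne_zero hinv] with y hy
  refine hy.trans ?_
  simpa [hf] using h0

/-- Near a boundary point, the projection is differentiable outside the ellipsoid and the kernel of
its derivative is the normal line. -/
theorem proj_local (hl : ∀ a, 0 < l a) {Pr : EuclideanSpace ℝ (Fin m) → EuclideanSpace ℝ (Fin m)}
    (hPr : IsNearestProj (ellipsoid l) Pr) {y0 : EuclideanSpace ℝ (Fin m)}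
    (h0 : ∑ a, l a * y0 a ^ 2 = 1) :
    ∃ μ : EuclideanSpace ℝ (Fin m) → ℝ, μ y0 = 0 ∧ ∀ᶠ y in 𝓝 y0, ContinuousAt μ y ∧
      (∀ a, 0 < 1 + μ y * l a) ∧ (1 < ∑ a, l a * y a ^ 2 → DifferentiableAt ℝ Pr y ∧
        ∀ w, fderiv ℝ Pr y w = 0 → ∃ t : ℝ, ∀ a, w a * (1 + μ y * l a) = y a * l a * t) := by
  obtain ⟨μ, h1, h2, h3⟩ := exists_mu hl h0
  have h4 : ∀ᶠ y in 𝓝 y0, ∀ a, 0 < 1 + μ y * l a := by
    refine eventually_all.mpr fun a => ?_
    have : ContinuousAt (fun y => 1 + μ y * l a) y0 :=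
      continuousAt_const.add (h1.continuousAt.mul continuousAt_const)
    exact this.eventually (lt_mem_nhds (by simp [h2]))
  have h5 : ∀ᶠ y in 𝓝 y0, 1 < ∑ a, l a * y a ^ 2 → ∀ a, Pr y a = y a / (1 + μ y * l a) := by
    filter_upwards [h3, h4] with y hy hy' hQ
    refine proj_eq hl hPr ?_ hy
    by_contra hneg
    have h6 : ∑ a, l a * y a ^ 2 ≤ ∑ a, l a * (y a / (1 + μ y * l a)) ^ 2 := by
      refine Finset.sum_le_sum fun a _ => mul_le_mul_of_nonneg_left ?_ (hl a).le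
      have h7 := hy' a
      have h8 : μ y * l a < 0 := mul_neg_of_neg_of_pos (not_le.mp hneg) (hl a)
      rw [div_pow, le_div_iff₀ (by positivity)]
      exact mul_le_of_le_one_right (sq_nonneg _) (by nlinarith)
    linarith
  refine ⟨μ, h2, ?_⟩
  filter_upwards [h1.eventually (by simp), h4, h5.eventually_nhds] with y hy hy' hy''
  refine ⟨hy.continuousAt, hy', fun hQ => ?_⟩
  have hμ := hy.differentiableAt one_ne_zero
  have h6 : ∀ᶠ z in 𝓝 y, ∀ a, Pr z a = z a / (1 + μ z * l a) := by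
    have : Continuous fun z : EuclideanSpace ℝ (Fin m) => ∑ a, l a * z a ^ 2 := by fun_prop
    filter_upwards [hy'', this.continuousAt.eventually (lt_mem_nhds hQ)] with z hz hz'
    exact hz hz'
  have hc : ∀ a, HasFDerivAt (fun z : EuclideanSpace ℝ (Fin m) => z a)
      (EuclideanSpace.proj a : EuclideanSpace ℝ (Fin m) →L[ℝ] ℝ) y := fun a =>
    (EuclideanSpace.proj a : EuclideanSpace ℝ (Fin m) →L[ℝ] ℝ).hasFDerivAt
  have h7 : DifferentiableAt ℝ Pr y := by
    refine differentiableAt_euclidean.mpr fun a => ?_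
    have h8 : DifferentiableAt ℝ (fun z : EuclideanSpace ℝ (Fin m) =>
        z a * (1 + μ z * l a)⁻¹) y :=
      (hc a).differentiableAt.mul (((hμ.mul_const _).const_add 1).fun_inv (hy' a).ne')
    refine h8.congr_of_eventuallyEq ?_
    filter_upwards [h6] with z hz
    rw [hz, div_eq_mul_inv]
  refine ⟨h7, fun w hw => ⟨fderiv ℝ μ y w, fun a => ?_⟩⟩
  have h8 := ((EuclideanSpace.proj a : EuclideanSpace ℝ (Fin m) →L[ℝ] ℝ).hasFDerivAt.comp y
    h7.hasFDerivAt).mul ((hμ.hasFDerivAt.mul_const (l a)).const_add 1)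
  have h9 : ContinuousAt (fun y => 1 + μ y * l a) y :=
    continuousAt_const.add (hy.continuousAt.mul continuousAt_const)
  have h10 := (hc a).unique (h8.congr_of_eventuallyEq (by
    filter_upwards [h6, h9.eventually (lt_mem_nhds (hy' a))] with z hz hz'
    simp only [Pi.mul_apply, Function.comp_apply, PiLp.proj_apply, hz]
    field_simp))
  have h11 := DFunLike.congr_fun h10 w
  simp only [PiLp.proj_apply, add_apply, smul_apply,
    Function.comp_apply, ContinuousLinearMap.comp_apply, hw, PiLp.zero_apply, smul_eq_mul,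
    mul_zero, add_zero, h6.self_of_nhds] at h11
  have h12 := (hy' a).ne'
  rw [h11]
  field_simp

theorem two_le_rank (M : Matrix (Fin m) (Fin n) ℝ) (i0 i1 : Fin n)
    (h : ∀ ξ η : ℝ, (∀ a, ξ * M a i0 + η * M a i1 = 0) → ξ = 0 ∧ η = 0) : 2 ≤ M.rank := by
  have h1 : LinearIndependent ℝ (M.transpose.submatrix ![i0, i1] id).row := by
    have : (M.transpose.submatrix ![i0, i1] id).row = ![fun a => M a i0, fun a => M a i1] := by
      ext i a
      fin_cases i <;> rfl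
    rw [this, LinearIndependent.pair_iff]
    exact fun ξ η hh => h ξ η fun a => congrFun hh a
  have h2 := h1.rank_matrix
  have h3 := Matrix.rank_submatrix_le M.transpose ![i0, i1] id
  rw [h2, Matrix.rank_transpose] at h3
  simpa using h3

end Pool.Agent.P.MP_5aaff8_an
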