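import Pool.Agent.P.MP_5aaff8_an.Proj.Map
import Pool.Agent.P.MP_5aaff8_an.Proj.Geo
import Pool.Agent.P.MP_5aaff8_an.Proj.Min
import Pool.Agent.P.MP_5aaff8_an.Proj.Pr

/-! The glued map on a small ball: the three regions and minimality. -/

namespace Pool.Agent.P.MP_5aaff8_an

open MeasureTheory Filter Topology Set Metric Complex
open scoped ComplexConjugate

variable {n m : ℕ} {i0 i1 : Fin n} {l : Fin m → ℝ} {a0 : Fin m}
  {W : ℂ → (Fin m → ℂ) × (Fin m → ℂ)}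

/-- The properties of the geodesic germ that are used at a point `z`. -/
structure Nice (l : Fin m → ℝ) (a0 : Fin m) (W : ℂ → (Fin m → ℂ) × (Fin m → ℂ)) (B : ℝ) (z : ℂ) :
    Prop where
  hd : HasDerivAt W (fld l (W z)) z
  hQ : ∑ a, (l a : ℂ) * (W z).1 a ^ 2 = 1
  hP : ∑ a, (l a : ℂ) * ((W z).1 a * (W z).2 a) = 0
  hc : ∀ a, (W (conj z)).1 a = conj ((W z).1 a) ∧ (W (conj z)).2 a = conj ((W z).2 a)
  hn : ∀ a, (W (-z)).1 a = sg a0 a * (W z).1 a ∧ (W (-z)).2 a = -(sg a0 a * (W z).2 a)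
  k0 : 0 ≤ (kap l (W z)).re
  k1 : (kap l (W z)).re ≤ B
  pos : 0 < ∑ a, l a * (rim ((W z).1 a) * rim (kap l (W z) * l a * (W z).1 a))
  pos0 : 0 < rim (kap l (W z) * l a0 * (W z).1 a0)
  vpos : 0 < ∑ a, l a * ((W z).2 a).re ^ 2

theorem exists_nice (hl : ∀ a, 0 < l a) {a0 a1 : Fin m} (h01 : a1 ≠ a0) :
    ∃ (W : ℂ → (Fin m → ℂ) × (Fin m → ℂ)) (B : ℝ), ContDiff ℝ 1 W ∧ W 0 = p0 l a0 ∧ 0 < B ∧
      ∀ᶠ z in 𝓝 (0 : ℂ), Nice l a0 W B z := by
  obtain ⟨W, h1, h2, h3, h4⟩ := exists_geodesic hl a0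
  set S : ℝ := ∑ a, l a * (if a = a0 then 0 else 1) with hS
  have hS0 : 0 < S := Finset.sum_pos' (fun a _ => by
    have := hl a
    split_ifs <;> simp [this.le]) ⟨a1, Finset.mem_univ _, by simp [h01, hl a1]⟩
  have hl0 := hl a0
  have hk : kap l (W 0) = ((S / l a0 : ℝ) : ℂ) := by
    rw [h2, kap, p0_N hl, hS]
    push_cast
    congr 1
    refine Finset.sum_congr rfl fun a _ => ?_
    simp only [p0]
    split_ifs <;> simp
  have hc1 : ∀ a, ContinuousAt (fun z => (W z).1 a) 0 := fun a =>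
    ((continuous_apply a).comp h1.continuous.fst).continuousAt
  have hc2 : ∀ a, ContinuousAt (fun z => (W z).2 a) 0 := fun a =>
    ((continuous_apply a).comp h1.continuous.snd).continuousAt
  have hk1 : ContinuousAt (fun z => (kap l (W z)).re) 0 := continuous_re.continuousAt.comp h3
  have hk2 : ∀ a, ContinuousAt (fun z => rim (kap l (W z) * l a * (W z).1 a)) 0 := fun a =>
    rim.continuous.continuousAt.comp ((h3.mul continuousAt_const).mul (hc1 a))
  have hq : 0 < S / l a0 := div_pos hS0 hl0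
  have hs : 0 < (√(l a0))⁻¹ := inv_pos.mpr (Real.sqrt_pos.mpr hl0)
  have e0 : rim (kap l (W 0) * l a0 * (W 0).1 a0) = S / l a0 * l a0 * (√(l a0))⁻¹ := by
    rw [hk, h2]
    simp only [p0, if_true, ← ofReal_mul, rim_apply, ofReal_re, ofReal_im, add_zero]
  have e1 : ∀ᶠ z in 𝓝 (0 : ℂ), 0 < (kap l (W z)).re :=
    hk1.eventually (lt_mem_nhds (by simp only [hk, ofReal_re]; exact hq))
  have e2 : ∀ᶠ z in 𝓝 (0 : ℂ), (kap l (W z)).re < S / l a0 + 1 :=
    hk1.eventually (gt_mem_nhds (by simp only [hk, ofReal_re]; linarith))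
  have e3 : ∀ᶠ z in 𝓝 (0 : ℂ),
      0 < ∑ a, l a * (rim ((W z).1 a) * rim (kap l (W z) * l a * (W z).1 a)) := by
    have : ContinuousAt (fun z =>
        ∑ a, l a * (rim ((W z).1 a) * rim (kap l (W z) * l a * (W z).1 a))) 0 :=
      tendsto_finsetSum _ fun a _ => continuousAt_const.mul
        ((rim.continuous.continuousAt.comp (hc1 a)).mul (hk2 a))
    refine this.eventually (lt_mem_nhds ?_)
    beta_reduce
    rw [Finset.sum_eq_single a0 (fun b _ hb => by simp [h2, p0, hb]) (by simp), e0, h2]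
    simp only [p0, if_true, rim_apply, ofReal_re, ofReal_im, add_zero]
    positivity
  have e4 : ∀ᶠ z in 𝓝 (0 : ℂ), 0 < rim (kap l (W z) * l a0 * (W z).1 a0) :=
    (hk2 a0).eventually (lt_mem_nhds (by simp only [e0]; positivity))
  have e5 : ∀ᶠ z in 𝓝 (0 : ℂ), 0 < ∑ a, l a * ((W z).2 a).re ^ 2 := by
    have : ContinuousAt (fun z => ∑ a, l a * ((W z).2 a).re ^ 2) 0 :=
      tendsto_finsetSum _ fun a _ => continuousAt_const.mul
        ((continuous_re.continuousAt.comp (hc2 a)).pow 2)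
    refine this.eventually (lt_mem_nhds ?_)
    refine hS0.trans_eq (Finset.sum_congr rfl fun a _ => ?_)
    simp only [h2, p0]
    split_ifs <;> simp
  refine ⟨W, S / l a0 + 1, h1, h2, by linarith, ?_⟩
  filter_upwards [h4, e1, e2, e3, e4, e5] with z hz f1 f2 f3 f4 f5
  exact ⟨hz.1, hz.2.1, hz.2.2.1, hz.2.2.2.1, hz.2.2.2.2, f1.le, f2.le, f3, f4, f5⟩

namespace Nice

variable {B : ℝ}

theorem d1 {z : ℂ} (h : Nice l a0 W B z) (a : Fin m) :
    HasDerivAt (fun z => (W z).1 a) ((W z).2 a) z := hasDerivAt_pi.mp h.hd.fst a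

theorem d2 {z : ℂ} (h : Nice l a0 W B z) (a : Fin m) :
    HasDerivAt (fun z => (W z).2 a) (-(kap l (W z) * l a * (W z).1 a)) z :=
  hasDerivAt_pi.mp h.hd.snd a

theorem im1 {s : ℝ} (h : Nice l a0 W B s) (a : Fin m) : ((W s).1 a).im = 0 := by
  have := (h.hc a).1
  rw [conj_ofReal] at this
  exact conj_eq_iff_im.mp this.symm

theorem im2 {s : ℝ} (h : Nice l a0 W B s) (a : Fin m) : ((W s).2 a).im = 0 := by
  have := (h.hc a).2
  rw [conj_ofReal] at this
  exact conj_eq_iff_im.mp this.symm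

theorem Qre {s : ℝ} (h : Nice l a0 W B s) : ∑ a, l a * ((W s).1 a).re ^ 2 = 1 := by
  have := congrArg re h.hQ
  rw [re_sum, one_re] at this
  rw [← this]
  exact Finset.sum_congr rfl fun a _ => by simp [sq, h.im1 a]

theorem Pre {s : ℝ} (h : Nice l a0 W B s) :
    ∑ a, l a * (((W s).1 a).re * ((W s).2 a).re) = 0 := by
  have := congrArg re h.hP
  rw [re_sum, zero_re] at this
  rw [← this]
  exact Finset.sum_congr rfl fun a _ => by simp [h.im1 a]

end Nice

theorem norm_vert (s t : ℝ) : ‖(s : ℂ) + I * t‖ ≤ |s| + |t| := by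
  refine (norm_add_le _ _).trans ?_
  simp

/-- Above the slanted free boundary the map leaves the ellipsoid. -/
theorem up_out (hl : ∀ a, 0 < l a) {B s T : ℝ} (hT : 0 < T)
    (hz : ∀ t ∈ Icc 0 T, Nice l a0 W B (s + I * t)) :
    1 < ∑ a, l a * rim ((W (s + I * T)).1 a) ^ 2 := by
  have h0 : Nice l a0 W B s := by simpa using hz 0 ⟨le_rfl, hT.le⟩
  have d1 : ∀ t ∈ Icc 0 T, ∀ a, HasDerivAt (fun t : ℝ => rim ((W (s + I * t)).1 a))
      (rim (I * (W (s + I * t)).2 a)) t := fun t ht a => by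
    simpa only [one_mul] using hasDerivAt_vert 1 ((hz t ht).d1 a)
  have d2 : ∀ t ∈ Icc 0 T, ∀ a, HasDerivAt (fun t : ℝ => rim (I * (W (s + I * t)).2 a))
      (rim (kap l (W (s + I * t)) * l a * (W (s + I * t)).1 a)) t := fun t ht a => by
    refine (hasDerivAt_vert I ((hz t ht).d2 a)).congr_deriv ?_
    rw [← mul_assoc, I_mul_I, neg_one_mul, neg_neg]
  have h1 : ∀ t ∈ Ioo 0 T,
      0 < ∑ a, l a * (2 * (rim ((W (s + I * t)).1 a) * rim (I * (W (s + I * t)).2 a))) := by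
    intro t ht
    have h2 := lt_of_deriv_pos ht.1 (f := fun t : ℝ =>
      ∑ a, l a * (2 * (rim ((W (s + I * t)).1 a) * rim (I * (W (s + I * t)).2 a))))
      (fun t' ht' => HasDerivAt.fun_sum (u := Finset.univ) fun a _ =>
        (((d1 t' ⟨ht'.1, ht'.2.trans ht.2.le⟩ a).mul
          (d2 t' ⟨ht'.1, ht'.2.trans ht.2.le⟩ a)).const_mul 2).const_mul (l a))
      (fun t' ht' => by
        refine lt_of_lt_of_le (mul_pos two_pos (hz t' ⟨ht'.1.le, (ht'.2.trans ht.2).le⟩).pos) ?_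
        rw [Finset.mul_sum]
        refine Finset.sum_le_sum fun a _ => ?_
        nlinarith [mul_nonneg (hl a).le (mul_self_nonneg (rim (I * (W (s + I * t')).2 a)))])
    refine lt_of_eq_of_lt ?_ h2
    have h3 : (0 : ℝ) = 2 * ∑ a, l a * (((W s).1 a).re * ((W s).2 a).re) := by
      rw [h0.Pre, mul_zero]
    refine h3.trans ?_
    rw [Finset.mul_sum]
    refine Finset.sum_congr rfl fun a _ => ?_
    simp [rim_apply, h0.im1 a, h0.im2 a]
    ring
  have h4 := lt_of_deriv_pos hT (f := fun t : ℝ => ∑ a, l a * rim ((W (s + I * t)).1 a) ^ 2)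
    (fun t ht => HasDerivAt.fun_sum (u := Finset.univ) fun a _ =>
      (((d1 t ht a).pow 2).const_mul (l a)).congr_deriv (by push_cast; ring)) h1
  refine lt_of_eq_of_lt ?_ h4
  rw [← h0.Qre]
  exact Finset.sum_congr rfl fun a _ => by simp [rim_apply, h0.im1 a]

/-- The map. -/
noncomputable def uE (i0 i1 : Fin n) (W : ℂ → (Fin m → ℂ) × (Fin m → ℂ)) (r : ℝ)
    (x : EuclideanSpace ℝ (Fin n)) : EuclideanSpace ℝ (Fin m) :=
  WithLp.toLp 2 fun a => ff i0 i1 (fun z => (W z).1 a) (fun z => (W z).2 a) (-r) x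

/-- Its differential. -/
noncomputable def DE (i0 i1 : Fin n) (W : ℂ → (Fin m → ℂ) × (Fin m → ℂ)) (r : ℝ)
    (x : EuclideanSpace ℝ (Fin n)) : Matrix (Fin m) (Fin n) ℝ :=
  Matrix.of fun a i => pp i0 i1 (fun z => (W z).2 a) (-r) i x

theorem box (h01 : i0 ≠ i1) {r : ℝ} {x : EuclideanSpace ℝ (Fin n)}
    (hx : x ∈ ball (pt i0 i1 0 (-r / 2)) r) : |x i0| < r ∧ |x i1 + r / 2| < r := by
  rw [mem_ball_iff_norm] at hx
  have h0 := (PiLp.norm_apply_le (x - pt i0 i1 0 (-r / 2)) i0).trans_lt hx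
  have h1 := (PiLp.norm_apply_le (x - pt i0 i1 0 (-r / 2)) i1).trans_lt hx
  rw [PiLp.sub_apply, Real.norm_eq_abs] at h0 h1
  rw [pt_0, sub_zero] at h0
  rw [pt_1 h01] at h1
  exact ⟨h0, by rwa [show x i1 + r / 2 = x i1 - -r / 2 by ring]⟩

/-- Fréchet differentiability of the map with the right differential. -/
def Dif (u : EuclideanSpace ℝ (Fin n) → EuclideanSpace ℝ (Fin m))
    (D : Matrix (Fin m) (Fin n) ℝ) (x : EuclideanSpace ℝ (Fin n)) : Prop :=
  ∀ a, DifferentiableAt ℝ (fun x => u x a) x ∧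
    ∀ i, fderiv ℝ (fun x => u x a) x (EuclideanSpace.single i 1) = D a i

section Main

variable {B r : ℝ} (h01 : i0 ≠ i1) (hl : ∀ a, 0 < l a)
  (hz : ∀ z : ℂ, ‖z‖ < 3 * r → Nice l a0 W B z) {x : EuclideanSpace ℝ (Fin n)}
  (hx : x ∈ ball (pt i0 i1 0 (-r / 2)) r)

include h01 hz hx

theorem nice_s : Nice l a0 W B (x i0) := by
  obtain ⟨h1, -⟩ := box h01 hx
  refine hz _ ?_
  rw [norm_real, Real.norm_eq_abs]
  linarith [abs_nonneg (x i0)]

theorem nice_eta : Nice l a0 W B (x i0 + x i1 : ℝ) := by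
  obtain ⟨h1, h2⟩ := box h01 hx
  refine hz _ ?_
  rw [norm_real, Real.norm_eq_abs]
  rw [abs_lt] at h1 h2 ⊢
  constructor <;> linarith [h1.1, h1.2, h2.1, h2.2]

omit h01 in
theorem nice_r : Nice l a0 W B (-r : ℝ) := by
  have := pos_of_mem_ball hx
  refine hz _ ?_
  rw [norm_real, Real.norm_eq_abs, abs_neg, abs_of_pos this]
  linarith

theorem nice_vert {t : ℝ} (ht : t ∈ Icc 0 (x i1)) : Nice l a0 W B (x i0 + I * t) := by
  obtain ⟨h1, h2⟩ := box h01 hx
  refine hz _ ((norm_vert _ _).trans_lt ?_)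
  rw [abs_of_nonneg ht.1]
  linarith [(abs_lt.mp h2).2, ht.2, pos_of_mem_ball hx]

omit hz in
theorem form_up (ht : 0 ≤ x i1) (a : Fin m) :
    uE i0 i1 W r x a = rim ((W (zet i0 i1 x)).1 a) ∧ ∀ i, DE i0 i1 W r x a i
      = rim (zet i0 i1 (EuclideanSpace.single i 1) * (W (zet i0 i1 x)).2 a) :=
  region_up (X := fun z => (W z).1 a) (V := fun z => (W z).2 a) (h := -r)
    (by linarith [(abs_lt.mp (box h01 hx).1).1]) ht

include hl in
theorem reg_up (ht : 0 < x i1) :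
    Dif (uE i0 i1 W r) (DE i0 i1 W r x) x ∧ 1 < ∑ a, l a * uE i0 i1 W r x a ^ 2 ∧
      ∀ a, ∑ i, lineDeriv ℝ (fun x => DE i0 i1 W r x a i) x (EuclideanSpace.single i 1) = 0 := by
  have h1 : Nice l a0 W B (zet i0 i1 x) := by
    rw [zet_apply]
    exact nice_vert h01 hz hx ⟨ht.le, le_rfl⟩
  have h2 := fun a => piece (Λ := zet i0 i1) rim (h1.d1 a) (h1.d2 a)
    (f := fun x => uE i0 i1 W r x a) (p := fun i x => DE i0 i1 W r x a i) (by
      have : Continuous fun x : EuclideanSpace ℝ (Fin n) => x i1 := by fun_prop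
      filter_upwards [isOpen_ball.mem_nhds hx, this.continuousAt.eventually (lt_mem_nhds ht)]
        with y hy hy'
      exact form_up h01 hy hy'.le a)
  refine ⟨fun a => (h2 a).1, ?_, fun a => by rw [(h2 a).2, sum_zet h01, zero_mul, map_zero]⟩
  simp only [(form_up h01 hx ht.le _).1, zet_apply]
  exact up_out hl ht fun t ht' => nice_vert h01 hz hx ht'

theorem reg_mid (hs : -r < x i0 + x i1) (ht : x i1 < 0) :
    Dif (uE i0 i1 W r) (DE i0 i1 W r x) x ∧ ∑ a, l a * uE i0 i1 W r x a ^ 2 = 1 ∧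
      ∃ k, 0 ≤ k ∧ k ≤ B ∧ ∀ a, ∑ i, lineDeriv ℝ (fun x => DE i0 i1 W r x a i) x
        (EuclideanSpace.single i 1) = -(2 * k * l a * uE i0 i1 W r x a) := by
  have h0 := nice_eta h01 hz hx
  have h1 : Nice l a0 W B (eta i0 i1 x) := by rwa [eta_apply]
  have h3 : ∀ a, ∀ᶠ y in 𝓝 x, uE i0 i1 W r y a = reCLM ((W (eta i0 i1 y)).1 a) ∧
      ∀ i, DE i0 i1 W r y a i
        = reCLM (eta i0 i1 (EuclideanSpace.single i 1) * (W (eta i0 i1 y)).2 a) := fun a => by
    have c1 : Continuous fun x : EuclideanSpace ℝ (Fin n) => x i1 := by fun_prop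
    have c2 : Continuous fun x : EuclideanSpace ℝ (Fin n) => x i0 + x i1 := by fun_prop
    filter_upwards [isOpen_ball.mem_nhds hx, c1.continuousAt.eventually (gt_mem_nhds ht),
      c2.continuousAt.eventually (lt_mem_nhds hs)] with y hy hy1 hy2
    exact region_mid (X := fun z => (W z).1 a) (V := fun z => (W z).2 a) hy2.le hy1.le
      ((nice_s h01 hz hy).im1 a) ((nice_s h01 hz hy).im2 a)
  have h2 := fun a => piece (Λ := eta i0 i1) reCLM (h1.d1 a) (h1.d2 a)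
    (f := fun x => uE i0 i1 W r x a) (p := fun i x => DE i0 i1 W r x a i) (h3 a)
  have h4 : ∀ a, uE i0 i1 W r x a = ((W (x i0 + x i1 : ℝ)).1 a).re := fun a => by
    rw [(h3 a).self_of_nhds.1, eta_apply, reCLM_apply]
  refine ⟨fun a => (h2 a).1, ?_, _, h0.k0, h0.k1, fun a => ?_⟩
  · simp only [h4]
    exact h0.Qre
  · have h5 := h0.im1 a
    rw [(h2 a).2, sum_eta h01, h4, eta_apply]
    generalize ((x i0 + x i1 : ℝ) : ℂ) = z at h5
    simp [h5]
    ring

omit hz in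
theorem neg_of_line (hs : x i0 + x i1 < -r) : x i1 < 0 := by
  linarith [(abs_lt.mp (box h01 hx).1).1]

theorem reg_line (hs : x i0 + x i1 < -r) :
    Dif (uE i0 i1 W r) (DE i0 i1 W r x) x ∧ 1 < ∑ a, l a * uE i0 i1 W r x a ^ 2 ∧
      (∀ a, ∑ i, lineDeriv ℝ (fun x => DE i0 i1 W r x a i) x (EuclideanSpace.single i 1) = 0) ∧
      ∀ a, uE i0 i1 W r x a = ((W (-r : ℝ)).1 a).re + ((W (-r : ℝ)).2 a).re * (x i0 + x i1 + r) ∧
        ∀ i, DE i0 i1 W r x a i
          = ((W (-r : ℝ)).2 a).re * (eta i0 i1 (EuclideanSpace.single i 1)).re := by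
  have h0 := nice_r hz hx
  have h3 : ∀ a, ∀ᶠ y in 𝓝 x, uE i0 i1 W r y a
      = reCLM ((W (-r : ℝ)).1 a + (W (-r : ℝ)).2 a * (eta i0 i1 y - (-r : ℝ))) ∧
      ∀ i, DE i0 i1 W r y a i
        = reCLM (eta i0 i1 (EuclideanSpace.single i 1) * (W (-r : ℝ)).2 a) := fun a => by
    have c2 : Continuous fun x : EuclideanSpace ℝ (Fin n) => x i0 + x i1 := by fun_prop
    filter_upwards [isOpen_ball.mem_nhds hx, c2.continuousAt.eventually (gt_mem_nhds hs)]
      with y hy hy2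
    exact region_line (X := fun z => (W z).1 a) (V := fun z => (W z).2 a) hy2.le
      (neg_of_line h01 hy hy2).le ((nice_s h01 hz hy).im1 a)
      ((nice_s h01 hz hy).im2 a)
  have h2 := fun a => piece (Λ := eta i0 i1) reCLM
    (X := fun z => (W (-r : ℝ)).1 a + (W (-r : ℝ)).2 a * (z - (-r : ℝ)))
    (V := fun _ => (W (-r : ℝ)).2 a)
    (by simpa using ((((hasDerivAt_id (eta i0 i1 x)).sub_const ((-r : ℝ) : ℂ)).const_mul
      ((W (-r : ℝ)).2 a)).const_add ((W (-r : ℝ)).1 a)))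
    (hasDerivAt_const _ _)
    (f := fun x => uE i0 i1 W r x a) (p := fun i x => DE i0 i1 W r x a i) (h3 a)
  have h4 : ∀ a, uE i0 i1 W r x a
      = ((W (-r : ℝ)).1 a).re + ((W (-r : ℝ)).2 a).re * (x i0 + x i1 + r) := fun a => by
    rw [(h3 a).self_of_nhds.1, eta_apply]
    generalize W (-r : ℝ) = w
    simp
  refine ⟨fun a => (h2 a).1, ?_, fun a => by rw [(h2 a).2, mul_zero, map_zero],
    fun a => ⟨h4 a, fun i => ?_⟩⟩
  · have h5 : ∑ a, l a * uE i0 i1 W r x a ^ 2 = ∑ a, l a * ((W (-r : ℝ)).1 a).re ^ 2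
        + 2 * (x i0 + x i1 + r) * ∑ a, l a * (((W (-r : ℝ)).1 a).re * ((W (-r : ℝ)).2 a).re)
        + (x i0 + x i1 + r) ^ 2 * ∑ a, l a * ((W (-r : ℝ)).2 a).re ^ 2 := by
      rw [Finset.mul_sum, Finset.mul_sum, ← Finset.sum_add_distrib, ← Finset.sum_add_distrib]
      exact Finset.sum_congr rfl fun a _ => by rw [h4]; ring
    rw [h5, h0.Qre, h0.Pre]
    have h6 : 0 < (x i0 + x i1 + r) ^ 2 := by nlinarith
    have := mul_pos h6 h0.vpos
    linarith
  · have h5 := h0.im2 a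
    rw [(h3 a).self_of_nhds.2]
    generalize W (-r : ℝ) = w at h5
    simp [h5, mul_comm]

end Main

theorem uE_cont (h01 : i0 ≠ i1) (hW : ContDiff ℝ 1 W) (r : ℝ) : Continuous (uE i0 i1 W r) :=
  (PiLp.continuous_toLp 2 _).comp (continuous_pi fun a =>
    (ff_glue h01 (contDiff_pi.mp hW.fst a) _ _).1.continuous)

theorem isMinE (h01 : i0 ≠ i1) (hl : ∀ a, 0 < l a) (hW : ContDiff ℝ 1 W) {B r : ℝ} (hr : 0 < r)
    (hz : ∀ z : ℂ, ‖z‖ < 3 * r → Nice l a0 W B z) (hB : ∀ a, 8 * r ^ 2 * B * l a ≤ 1) :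
    IsMinimizingConstraintMap (ball (pt i0 i1 0 (-r / 2)) r) (ellipsoid l)ᶜ
      (uE i0 i1 W r) (DE i0 i1 W r) := by
  have g1 := fun a => ff_glue h01 (contDiff_pi.mp hW.fst a) (fun z => (W z).2 a) (-r)
  have g2 := fun a => pp_glue h01 (contDiff_pi.mp hW.snd a) (-r)
  have key : ∀ᵐ x, x ∈ ball (pt i0 i1 0 (-r / 2)) r →
      Dif (uE i0 i1 W r) (DE i0 i1 W r x) x ∧ 1 ≤ ∑ a, l a * uE i0 i1 W r x a ^ 2 ∧
      ∀ y ∈ closure (ellipsoid l)ᶜ, 0 ≤ ∑ a, ((y a - uE i0 i1 W r x a) ^ 2 / (2 * r) ^ 2 -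
        2 * ((∑ i, lineDeriv ℝ (fun x => DE i0 i1 W r x a i) x (EuclideanSpace.single i 1))
          * (y a - uE i0 i1 W r x a))) := by
    filter_upwards [ae_sum_ne h01 (-r), ae_coord_ne_zero i1] with x h1 h2 hx
    rcases lt_or_gt_of_ne h1 with h1 | h1
    · obtain ⟨e1, e2, e3, -⟩ := reg_line h01 hz hx h1
      refine ⟨e1, e2.le, fun y _ => Finset.sum_nonneg fun a _ => ?_⟩
      rw [e3, zero_mul, mul_zero, sub_zero]
      positivity
    rcases lt_or_gt_of_ne h2 with h2 | h2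
    · obtain ⟨e1, e2, k, k0, k1, e3⟩ := reg_mid h01 hz hx h1 h2
      refine ⟨e1, e2.ge, fun y hy => ?_⟩
      have e4 := closure_compl_sub hy
      have e5 : 0 ≤ 2 * k * (∑ a, l a * y a ^ 2 - ∑ a, l a * uE i0 i1 W r x a ^ 2) :=
        mul_nonneg (by positivity) (by linarith)
      refine e5.trans ?_
      rw [← Finset.sum_sub_distrib, Finset.mul_sum]
      refine Finset.sum_le_sum fun a _ => ?_
      rw [e3]
      have e6 : 2 * k * l a ≤ 1 / (2 * r) ^ 2 := by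
        rw [le_div_iff₀ (by positivity)]
        have := mul_le_mul_of_nonneg_left k1 (show 0 ≤ 8 * r ^ 2 * l a by have := hl a; positivity)
        nlinarith [hB a]
      have e7 := mul_le_mul_of_nonneg_left e6 (sq_nonneg (y a - uE i0 i1 W r x a))
      rw [mul_one_div] at e7
      nlinarith
    · obtain ⟨e1, e2, e3⟩ := reg_up h01 hl hz hx h2
      refine ⟨e1, e2.le, fun y _ => Finset.sum_nonneg fun a _ => ?_⟩
      rw [e3, zero_mul, mul_zero, sub_zero]
      positivity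
  have hW12 : IsW12 (ball (pt i0 i1 0 (-r / 2)) r) (uE i0 i1 W r) (DE i0 i1 W r) :=
    isW12_of (uE_cont h01 hW r) (fun a => (g1 a).1) (fun a => (g1 a).2)
      (fun a i => (g2 a i).1.continuous) (key.mono fun x hx hx' a => ((hx hx').1 a).2)
  refine ⟨hW12, ?_, fun Ω' hΩ' hK hsub v Dv hv hv1 hvu => ?_⟩
  · exact (ae_restrict_iff' measurableSet_ball).mpr
      (key.mono fun x hx hx' => mem_closure_compl (hx hx').2.1)
  · refine minimal_gen isOpen_ball i0 (δ := 2 * r) (by positivity) (fun x hx hy => ?_) hW12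
      (fun a i x => lineDeriv ℝ (fun x => DE i0 i1 W r x a i) x (EuclideanSpace.single i 1))
      (fun a i => (g2 a i).1) (fun a i => measurable_lineDeriv (g2 a i).1.continuous)
      (fun a i => (g2 a i).2.mono fun x hx => hx.lineDifferentiableAt.hasLineDerivAt)
      (key.mono fun x hx hx' => (hx hx').2.2) hΩ' hK hsub hv hv1 hvu
    have h1 := (abs_lt.mp (box h01 hx).1).1
    have h2 := (abs_lt.mp (box h01 hy).1).2
    simp at h2
    linarith

end Pool.Agent.P.MP_5aaff8_an
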